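import Mathlib
import Pool.Agent.Helper927.Dist.A1

set_option autoImplicit false

universe u v

namespace Pool.Agent.Dist14D

open Pool.Agent.Dist14

/-- The data of the main construction: a two-sided ideal `K` inside the radical, `s ∈ K`, an
increasing chain of left ideals `Z α` (`α` in a linearly ordered set `W` without maximum) with
`s ∉ Z α` and with `R ⧸ Z α` torsion-free for `L = {l | l * s ∈ ⋃ Z}`; and an index set `I`
(nodes) with a family of eventually disjoint coherent branches `pre b : W → I`, indexed by `B`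
and three extra ones. -/
structure Full (R : Type u) [Ring R] where
  K : Ideal R
  two : K.IsTwoSided
  le_jac : K ≤ Ring.jacobson R
  s : R
  s_mem : s ∈ K
  W : Type u
  [lo : LinearOrder W]
  [nm : NoMaxOrder W]
  [nw : Nonempty W]
  Z : W → Ideal R
  Z_mono : Monotone Z
  s_notMem : ∀ α, s ∉ Z α
  closed : ∀ α (x : R), (∀ l, (∃ β, l * s ∈ Z β) → l * x ∈ Z α) → x ∈ Z α
  I : Type u
  B : Type u
  lev : I → W
  pre : B ⊕ Fin 3 → W → I
  lev_pre : ∀ b α, lev (pre b α) = α
  disj : ∀ b b', b ≠ b' → ∃ α0, ∀ α, α0 ≤ α → pre b α ≠ pre b' α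
  coh : ∀ b b' α, pre b α = pre b' α → ∀ β, β ≤ α → pre b β = pre b' β

attribute [instance] Full.lo Full.nm Full.nw

namespace Full

variable {R : Type u} [Ring R] (S : Full R)

/-- the full product of the modules `R ⧸ Z (lev i)` -/
abbrev P : Type u := ∀ i : S.I, R ⧸ S.Z (S.lev i)

/-- the class of `r` in coordinate `i` -/
def cl (i : S.I) (r : R) : R ⧸ S.Z (S.lev i) := Submodule.Quotient.mk r

open Classical in
/-- the vector of ones along the branch `b` -/
noncomputable def xi (b : S.B ⊕ Fin 3) : S.P :=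
  fun i => if S.pre b (S.lev i) = i then S.cl i 1 else 0

open Classical in
/-- the vector of ones along the branch `b`, below level `α` -/
noncomputable def path (b : S.B ⊕ Fin 3) (α : S.W) : S.P :=
  fun i => if S.pre b (S.lev i) = i ∧ S.lev i < α then S.cl i 1 else 0

/-- the span of all truncated branch vectors -/
def T : Submodule R S.P :=
  Submodule.span R (Set.range fun p : (S.B ⊕ Fin 3) × S.W => S.path p.1 p.2)

/-- the vector attached to `none` or to an extra branch -/
noncomputable def xe : Option (Fin 3) → S.P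
  | none => 0
  | some j => S.xi (Sum.inr j)

/-- the generators `h η` -/
noncomputable def h (Θ : S.B → Option (Fin 3)) (η : S.B) : S.P :=
  S.xi (Sum.inl η) + S.xe (Θ η)

/-- the elements `y j = s ξ_j` -/
noncomputable def y (j : Fin 3) : S.P := S.s • S.xi (Sum.inr j)

/-- the module attached to `Θ` -/
noncomputable def M (Θ : S.B → Option (Fin 3)) : Submodule R S.P :=
  S.T ⊔ Submodule.span R (Set.range (S.h Θ)) ⊔ Submodule.span R {S.y 0, S.y 1}

/-- the submodule `T + K M` -/
noncomputable def G (Θ : S.B → Option (Fin 3)) : Submodule R S.P :=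
  S.T ⊔ S.K • S.M Θ

/-- the union of the `Z α` -/
def Zinf : Set R := {z | ∃ β, z ∈ S.Z β}

/-- `w'` is the value at `w` of the canonical extension of `φ : T → P`. -/
def Rel (φ : S.T →ₗ[R] S.P) (w w' : S.P) : Prop :=
  ∀ l : R, l * S.s ∈ S.Zinf → ∃ hl : l • w ∈ S.T, l • w' = φ ⟨l • w, hl⟩

/-- `p` is eventually equal to the class of `d` along the branch `b`. -/
def Germ (p : S.P) (b : S.B ⊕ Fin 3) (d : R) : Prop :=
  ∃ α0, ∀ α, α0 ≤ α → p (S.pre b α) = S.cl (S.pre b α) d

/-- what it takes for `φ` to extend to `M Θ` -/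
def Closed (φ : S.T →ₗ[R] S.P) (Θ : S.B → Option (Fin 3)) : Prop :=
  (∀ η, ∃ w' ∈ S.G Θ, S.Rel φ (S.s • S.h Θ η) w') ∧
    (∀ j : Fin 3, j ≠ 2 → ∃ w' ∈ S.M Θ, S.Rel φ (S.y j) w')

/-- `φ` acts on `y 0`, `y 1` modulo `G Θ` as the same scalar. -/
def Scalar (φ : S.T →ₗ[R] S.P) (Θ : S.B → Option (Fin 3)) : Prop :=
  ∃ d : R, ∀ j : Fin 3, j ≠ 2 → ∃ w', S.Rel φ (S.y j) w' ∧ w' - d • S.y j ∈ S.G Θ

end Full


end Pool.Agent.Dist14D
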