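import Pool.Agent.Helper927.DistD.Defs
set_option autoImplicit false
set_option maxHeartbeats 4000000
universe u v

namespace Pool.Agent.Dist14D

open Pool.Agent.Dist14

namespace Full

variable {R : Type u} [Ring R] (S : Full R)

end Full


/-! ### AVAILABLE: statements you may use; leave these `sorry`s in place (they are proved in other jobs) -/



/-! ### TARGET: replace the `sorry`s below by proofs (auxiliary lemmas are fine, put them in this file) -/

theorem Full.zinf_facts {R : Type u} [Ring R] (S : Full R) :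
    (0 : R) ∈ S.Zinf ∧ (∀ a b, a ∈ S.Zinf → b ∈ S.Zinf → a + b ∈ S.Zinf) ∧
      (∀ a b, a ∈ S.Zinf → b ∈ S.Zinf → a - b ∈ S.Zinf) ∧
      (∀ r a, a ∈ S.Zinf → r * a ∈ S.Zinf) ∧ (∀ a, a ∈ S.Zinf → -a ∈ S.Zinf) ∧
      S.s ∉ S.Zinf := by
  refine ⟨?_, ?_, ?_, ?_, ?_, ?_⟩
  · exact ⟨Classical.arbitrary S.W, (S.Z _).zero_mem⟩
  · rintro a b ⟨β, ha⟩ ⟨γ, hb⟩
    exact ⟨max β γ, (S.Z _).add_mem (S.Z_mono (le_max_left β γ) ha)
      (S.Z_mono (le_max_right β γ) hb)⟩
  · rintro a b ⟨β, ha⟩ ⟨γ, hb⟩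
    exact ⟨max β γ, (S.Z _).sub_mem (S.Z_mono (le_max_left β γ) ha)
      (S.Z_mono (le_max_right β γ) hb)⟩
  · rintro r a ⟨β, ha⟩
    exact ⟨β, (S.Z β).mul_mem_left r ha⟩
  · rintro a ⟨β, ha⟩
    exact ⟨β, (S.Z β).neg_mem ha⟩
  · rintro ⟨β, hs⟩
    exact S.s_notMem β hs

theorem Full.path_mem_T {R : Type u} [Ring R] (S : Full R) (b : S.B ⊕ Fin 3) (α : S.W) :
    S.path b α ∈ S.T := by
  exact Submodule.subset_span ⟨(b, α), rfl⟩

theorem Full.smul_xi_eq {R : Type u} [Ring R] (S : Full R) (b : S.B ⊕ Fin 3) (β : S.W)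
    (z : R) (hz : z ∈ S.Z β) : z • S.xi b = z • S.path b β := by
  funext i
  show z • S.xi b i = z • S.path b β i
  unfold Full.xi Full.path
  by_cases h1 : S.pre b (S.lev i) = i
  · by_cases h2 : S.lev i < β
    · rw [if_pos h1, if_pos ⟨h1, h2⟩]
    · rw [if_pos h1, if_neg (fun h => h2 h.2), smul_zero]
      unfold Full.cl
      rw [← Submodule.Quotient.mk_smul, smul_eq_mul, mul_one, Submodule.Quotient.mk_eq_zero]
      exact S.Z_mono (not_lt.1 h2) hz
  · rw [if_neg h1, if_neg (fun h => h1 h.1)]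

theorem Full.smul_xi_mem {R : Type u} [Ring R] (S : Full R) (b : S.B ⊕ Fin 3)
    (z : R) (hz : z ∈ S.Zinf) : z • S.xi b ∈ S.T := by
  obtain ⟨β, hz⟩ := hz
  rw [S.smul_xi_eq b β z hz]
  exact S.T.smul_mem z (S.path_mem_T b β)

theorem Full.smul_xe_mem {R : Type u} [Ring R] (S : Full R) (x : Option (Fin 3))
    (z : R) (hz : z ∈ S.Zinf) : z • S.xe x ∈ S.T := by
  cases x with
  | none =>
    show z • (0 : S.P) ∈ S.T
    rw [smul_zero]
    exact S.T.zero_mem
  | some j => exact S.smul_xi_mem (Sum.inr j) z hz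

theorem Full.smul_h_mem {R : Type u} [Ring R] (S : Full R) (Θ : S.B → Option (Fin 3))
    (η : S.B) (z : R) (hz : z ∈ S.Zinf) : z • S.h Θ η ∈ S.T := by
  unfold Full.h
  rw [smul_add]
  exact S.T.add_mem (S.smul_xi_mem _ z hz) (S.smul_xe_mem _ z hz)

theorem Full.tors {R : Type u} [Ring R] (S : Full R) (p : S.P)
    (hp : ∀ l : R, l * S.s ∈ S.Zinf → l • p = 0) : p = 0 := by
  funext i
  obtain ⟨x, hx⟩ := Submodule.Quotient.mk_surjective _ (p i)
  have hx2 : x ∈ S.Z (S.lev i) := by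
    refine S.closed (S.lev i) x (fun l hl => ?_)
    have h1 := congrFun (hp l hl) i
    have h2 : l • p i = 0 := h1
    rw [← hx, ← Submodule.Quotient.mk_smul, smul_eq_mul, Submodule.Quotient.mk_eq_zero] at h2
    exact h2
  show p i = 0
  rw [← hx, Submodule.Quotient.mk_eq_zero]
  exact hx2

end Pool.Agent.Dist14D
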