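import Pool.Agent.Helper927.DistD.Defs
set_option autoImplicit false
set_option maxHeartbeats 4000000
universe u v

namespace Pool.Agent.Dist14D

open Pool.Agent.Dist14

namespace Full

variable {R : Type u} [Ring R] (S : Full R)

end Full


/-! ### AVAILABLE: statements you may use; leave these `sorry`s in place (they are proved in other jobs) -/



/-! ### TARGET: replace the `sorry`s below by proofs (auxiliary lemmas are fine, put them in this file) -/

/-- auxiliary recursion -/
noncomputable def kap (c0 : Cardinal.{u}) (W : Type u) [LinearOrder W] [WellFoundedLT W] :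
    W → Cardinal.{u} :=
  (wellFounded_lt (α := W)).fix fun α ih =>
    2 ^ (c0 + Cardinal.sum (fun β : Set.Iio α => ih β.1 β.2))

theorem kap_eq (c0 : Cardinal.{u}) (W : Type u) [LinearOrder W] [WellFoundedLT W] (α : W) :
    kap c0 W α = 2 ^ (c0 + Cardinal.sum (fun β : Set.Iio α => kap c0 W β.1)) := by
  unfold kap
  rw [WellFounded.fix_eq]

/-- Fast growing cardinals indexed by a well-ordered set. -/
theorem exists_levels (c0 : Cardinal.{u}) (hc : Cardinal.aleph0 ≤ c0) (W : Type u) [LinearOrder W]
    [WellFoundedLT W] :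
    ∃ Lv : W → Type u, (∀ α, c0 ≤ Cardinal.mk (Lv α)) ∧
      (∀ α β, β < α → 2 ^ Cardinal.mk (Lv β) ≤ Cardinal.mk (Lv α)) ∧
      (∀ α, 2 ^ (c0 + Cardinal.sum (fun β : Set.Iio α => Cardinal.mk (Lv β.1))) =
        Cardinal.mk (Lv α)) := by
  refine ⟨fun α => (kap c0 W α).out, ?_, ?_, ?_⟩
  · intro α
    rw [Cardinal.mk_out, kap_eq]
    exact (self_le_add_right c0 _).trans (Cardinal.cantor _).le
  · intro α β hβ
    rw [Cardinal.mk_out, Cardinal.mk_out, kap_eq c0 W α]
    refine Cardinal.power_le_power_left two_ne_zero ?_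
    refine (Cardinal.le_sum (fun β : Set.Iio α => kap c0 W β.1) ⟨β, hβ⟩).trans ?_
    exact self_le_add_left _ _
  · intro α
    simp only [Cardinal.mk_out]
    exact (kap_eq c0 W α).symm

end Pool.Agent.Dist14D
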