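import Pool.Agent.Helper927.DistD.Defs
import Pool.Agent.Helper927.DistD.H10
set_option autoImplicit false
set_option maxHeartbeats 4000000
universe u v

namespace Pool.Agent.Dist14D

open Pool.Agent.Dist14

namespace Full

variable {R : Type u} [Ring R] (S : Full R)

end Full


/-! ### TARGET: replace the `sorry`s below by proofs (auxiliary lemmas are fine, put them in this file) -/

/-- partial branches -/
abbrev TNode {W : Type u} [LinearOrder W] (Lv : W → Type u) : Type u :=
  Σ α : W, (∀ β : Set.Iio α, Lv β.1)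

/-- levels of nodes -/
def treeLev {W : Type u} [LinearOrder W] (Lv : W → Type u) :
    TNode Lv ⊕ (Fin 3 × W) → W
  | .inl n => n.1
  | .inr p => p.2

/-- the branches -/
def treePre {W : Type u} [LinearOrder W] (Lv : W → Type u) :
    (∀ α, Lv α) ⊕ Fin 3 → W → TNode Lv ⊕ (Fin 3 × W)
  | .inl η, α => .inl ⟨α, fun β => η β.1⟩
  | .inr j, α => .inr (j, α)

theorem treePre_inl_eq {W : Type u} [LinearOrder W] (Lv : W → Type u) (η η' : ∀ α, Lv α)
    (α : W) (h : treePre Lv (.inl η) α = treePre Lv (.inl η') α) : ∀ β, β < α → η β = η' β := by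
  intro β hβ
  have h1 : (⟨α, fun β : Set.Iio α => η β.1⟩ : TNode Lv) =
      ⟨α, fun β : Set.Iio α => η' β.1⟩ := Sum.inl.inj h
  have h2 : (fun β : Set.Iio α => η β.1) = fun β : Set.Iio α => η' β.1 := by
    have := (Sigma.mk.inj_iff.1 h1).2
    exact eq_of_heq this
  exact congrFun h2 ⟨β, hβ⟩

theorem treePre_inl_of {W : Type u} [LinearOrder W] (Lv : W → Type u) (η η' : ∀ α, Lv α)
    (α : W) (h : ∀ β, β < α → η β = η' β) :
    treePre Lv (.inl η) α = treePre Lv (.inl η') α := by
  have : (fun β : Set.Iio α => η β.1) = fun β : Set.Iio α => η' β.1 := by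
    funext β
    exact h β.1 β.2
  simp only [treePre]
  rw [this]

open Cardinal in
/-- The tree of nodes and its branches. -/
theorem exists_tree (R : Type u) (W : Type u) [LinearOrder W] [WellFoundedLT W]
    [NoMaxOrder W] [Nonempty W] :
    ∃ (I B : Type u) (lev : I → W) (pre : B ⊕ Fin 3 → W → I),
      (∀ b α, lev (pre b α) = α) ∧
      (∀ b b', b ≠ b' → ∃ α0, ∀ α, α0 ≤ α → pre b α ≠ pre b' α) ∧
      (∀ b b' α, pre b α = pre b' α → ∀ β, β ≤ α → pre b β = pre b' β) ∧
      Infinite I ∧ Nonempty (Set (I ⊕ R) ↪ B) := by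
  classical
  set c0 : Cardinal.{u} := Cardinal.aleph0 + Cardinal.mk R + Cardinal.mk W with hc0
  have hc : Cardinal.aleph0 ≤ c0 := by
    rw [hc0, add_assoc]
    exact self_le_add_right _ _
  have hR : Cardinal.mk R ≤ c0 := by
    rw [hc0, add_right_comm]
    exact self_le_add_left _ _
  have hW : Cardinal.mk W ≤ c0 := by
    rw [hc0]
    exact self_le_add_left _ _
  obtain ⟨Lv, h1, h2, h3⟩ := exists_levels c0 hc W
  refine ⟨TNode Lv ⊕ (Fin 3 × W), ∀ α, Lv α, treeLev Lv, treePre Lv, ?_, ?_, ?_, ?_, ?_⟩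
  · rintro (η | j) α <;> rfl
  · rintro (η | j) (η' | j') hne
    · have hne' : η ≠ η' := fun h => hne (by rw [h])
      obtain ⟨β, hβ⟩ := Function.ne_iff.1 hne'
      obtain ⟨α0, hα0⟩ := exists_gt β
      refine ⟨α0, fun α hα h => hβ ?_⟩
      exact treePre_inl_eq Lv η η' α h β (lt_of_lt_of_le hα0 hα)
    · obtain ⟨w⟩ := (inferInstance : Nonempty W)
      exact ⟨w, fun α _ h => by simp [treePre] at h⟩
    · obtain ⟨w⟩ := (inferInstance : Nonempty W)
      exact ⟨w, fun α _ h => by simp [treePre] at h⟩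
    · obtain ⟨w⟩ := (inferInstance : Nonempty W)
      refine ⟨w, fun α _ h => hne ?_⟩
      simp [treePre] at h
      rw [h]
  · rintro (η | j) (η' | j') α h β hβ
    · exact treePre_inl_of Lv η η' β fun γ hγ =>
        treePre_inl_eq Lv η η' α h γ (lt_of_lt_of_le hγ hβ)
    · simp [treePre] at h
    · simp [treePre] at h
    · simp [treePre] at h
      rw [h]
  · have : Infinite W := NoMaxOrder.infinite
    have : Infinite (Fin 3 × W) := Prod.infinite_of_right
    exact Sum.infinite_of_right
  · set σ : Cardinal.{u} := Cardinal.sum (fun α : W => #(Lv α)) with hσ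
    have hκσ : ∀ α, #(Lv α) ≤ σ := fun α => Cardinal.le_sum (fun α : W => #(Lv α)) α
    have hc0σ : c0 ≤ σ := by
      obtain ⟨w⟩ := (inferInstance : Nonempty W)
      exact (h1 w).trans (hκσ w)
    have hσinf : ℵ₀ ≤ σ := hc.trans hc0σ
    -- (a)
    have ha : ∀ α : W, #(∀ β : Set.Iio α, Lv β.1) ≤ #(Lv α) := by
      intro α
      set τ : Cardinal.{u} := c0 + Cardinal.sum (fun β : Set.Iio α => #(Lv β.1)) with hτ
      have hc0τ : c0 ≤ τ := self_le_add_right _ _
      have hτinf : ℵ₀ ≤ τ := hc.trans hc0τ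
      have hIio : #(Set.Iio α) ≤ τ := (Cardinal.mk_set_le _).trans (hW.trans hc0τ)
      rw [Cardinal.mk_pi]
      calc Cardinal.prod (fun β : Set.Iio α => #(Lv β.1))
          ≤ Cardinal.prod (fun _ : Set.Iio α => τ) := by
            refine Cardinal.prod_le_prod _ _ fun β => ?_
            exact (Cardinal.le_sum (fun β : Set.Iio α => #(Lv β.1)) β).trans
              (self_le_add_left _ _)
        _ = τ ^ #(Set.Iio α) := Cardinal.prod_const' _ _
        _ ≤ τ ^ τ := Cardinal.power_le_power_left (ne_of_gt (lt_of_lt_of_le aleph0_pos hτinf)) hIio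
        _ = 2 ^ τ := Cardinal.power_self_eq hτinf
        _ = #(Lv α) := h3 α
    -- (b)
    have hNode : #(TNode Lv) ≤ σ := by
      rw [Cardinal.mk_sigma]
      exact Cardinal.sum_le_sum _ _ ha
    have h3W : #(Fin 3 × W) ≤ σ := by
      rw [Cardinal.mk_prod, Cardinal.lift_uzero]
      refine Cardinal.mul_le_of_le hσinf ?_ (hW.trans hc0σ)
      refine le_trans ?_ hσinf
      exact Cardinal.lift_le_aleph0.2 (Cardinal.lt_aleph0_of_finite (Fin 3)).le
    have hIR : #((TNode Lv ⊕ (Fin 3 × W)) ⊕ R) ≤ σ := by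
      rw [Cardinal.mk_sum, Cardinal.lift_id, Cardinal.lift_id, Cardinal.mk_sum, Cardinal.lift_id,
        Cardinal.lift_id]
      exact Cardinal.add_le_of_le hσinf (Cardinal.add_le_of_le hσinf hNode h3W)
        (hR.trans hc0σ)
    -- (c)
    have hnx : ∃ nx : W → W, (∀ α, α < nx α) ∧ ∀ α β, α < β → nx α ≤ β := by
      have hex : ∀ α : W, {β | α < β}.Nonempty := fun α => exists_gt α
      refine ⟨fun α => wellFounded_lt.min {β | α < β} (hex α), fun α => ?_, fun α β h => ?_⟩
      · exact wellFounded_lt.min_mem {β | α < β} (hex α)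
      · exact not_lt.1 (wellFounded_lt.not_lt_min {β | α < β} h)
    obtain ⟨nx, hnx1, hnx2⟩ := hnx
    have hnxinj : Function.Injective nx := by
      intro α β h
      rcases lt_trichotomy α β with hlt | heq | hlt
      · exact absurd (hnx2 α β hlt) (not_le.2 (h ▸ hnx1 β))
      · exact heq
      · exact absurd (hnx2 β α hlt) (not_le.2 (h ▸ hnx1 α))
    have hne : ∀ α, Nonempty (Lv α) := fun α => by
      rw [← Cardinal.mk_ne_zero_iff]
      exact ne_of_gt (lt_of_lt_of_le aleph0_pos (hc.trans (h1 α)))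
    have hc2 : (2 : Cardinal.{u}) ^ σ ≤ #(∀ α, Lv α) := by
      have e1 : (2 : Cardinal.{u}) ^ σ = Cardinal.prod (fun α : W => 2 ^ #(Lv α)) := by
        rw [hσ]; exact Cardinal.power_sum _ _
      rw [e1]
      calc Cardinal.prod (fun α : W => 2 ^ #(Lv α))
          ≤ Cardinal.prod (fun α : W => #(Lv (nx α))) :=
            Cardinal.prod_le_prod _ _ fun α => h2 (nx α) α (hnx1 α)
        _ = #(∀ α, Lv (nx α)) := (Cardinal.mk_pi _).symm
        _ ≤ #(∀ α, Lv α) := by
            refine Cardinal.mk_le_of_surjective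
              (f := fun (F : ∀ α, Lv α) => fun α => F (nx α)) ?_
            intro f
            refine ⟨fun γ => if h : ∃ α, nx α = γ then h.choose_spec ▸ f h.choose
              else (hne γ).some, ?_⟩
            funext α
            have hex : ∃ α', nx α' = nx α := ⟨α, rfl⟩
            simp only [dif_pos hex]
            have : ∀ (α' : W) (h : nx α' = nx α), (h ▸ f α' : Lv (nx α)) = f α := by
              intro α' h
              obtain rfl := hnxinj h
              rfl
            exact this _ hex.choose_spec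
    have hfin : #(Set ((TNode Lv ⊕ (Fin 3 × W)) ⊕ R)) ≤ #(∀ α, Lv α) := by
      rw [Cardinal.mk_set]
      exact (Cardinal.power_le_power_left two_ne_zero hIR).trans hc2
    exact hfin

end Pool.Agent.Dist14D
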