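import Pool.Agent.Helper927.DistD.Defs
import Pool.Agent.Helper927.DistD.H1
set_option autoImplicit false
set_option maxHeartbeats 4000000
universe u v

namespace Pool.Agent.Dist14D

open Pool.Agent.Dist14

namespace Full

variable {R : Type u} [Ring R] (S : Full R)

end Full


/-! ### TARGET: replace the `sorry`s below by proofs (auxiliary lemmas are fine, put them in this file) -/

theorem Full.path_eq_of_node {R : Type u} [Ring R] (S : Full R) {b b' : S.B ⊕ Fin 3}
    {α α' : S.W} (h : S.pre b α = S.pre b' α') : S.path b α = S.path b' α' := by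
  have hα : α = α' := by rw [← S.lev_pre b α, h, S.lev_pre]
  subst hα
  funext i
  simp only [Full.path]
  by_cases hlt : S.lev i < α
  · rw [S.coh b b' α h (S.lev i) hlt.le]
  · rw [if_neg (fun h => hlt h.2), if_neg (fun h => hlt h.2)]

theorem Full.card_T {R : Type u} [Ring R] (S : Full R) (hI : Infinite S.I) :
    Cardinal.mk S.T ≤ Cardinal.mk (S.I ⊕ R) := by
  classical
  set g : S.I → S.P := fun i =>
    if h : ∃ p : (S.B ⊕ Fin 3) × S.W, S.pre p.1 p.2 = i then S.path h.choose.1 h.choose.2 else 0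
    with hg
  have hrange : ∀ p : (S.B ⊕ Fin 3) × S.W, g (S.pre p.1 p.2) = S.path p.1 p.2 := by
    intro p
    have hex : ∃ p' : (S.B ⊕ Fin 3) × S.W, S.pre p'.1 p'.2 = S.pre p.1 p.2 := ⟨p, rfl⟩
    simp only [hg]
    rw [dif_pos hex]
    exact S.path_eq_of_node hex.choose_spec
  have hT : S.T ≤ Submodule.span R (Set.range g) := by
    apply Submodule.span_mono
    rintro _ ⟨p, rfl⟩
    exact ⟨S.pre p.1 p.2, hrange p⟩
  have hex : ∀ t : S.T, ∃ c : S.I →₀ R, (c.sum fun i a => a • g i) = (t : S.P) := fun t =>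
    Finsupp.mem_span_range_iff_exists_finsupp.1 (hT t.2)
  choose c hc using hex
  have hinj : Function.Injective c := by
    intro t t' h
    apply Subtype.ext
    rw [← hc t, ← hc t', h]
  haveI : Nontrivial R := by
    obtain ⟨α⟩ := S.nw
    refine nontrivial_of_ne S.s 0 fun h => S.s_notMem α ?_
    rw [h]
    exact (S.Z α).zero_mem
  calc Cardinal.mk S.T ≤ Cardinal.mk (S.I →₀ R) := Cardinal.mk_le_of_injective hinj
    _ = max (Cardinal.mk S.I) (Cardinal.mk R) := Cardinal.mk_finsupp_of_infinite _ _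
    _ ≤ Cardinal.mk S.I + Cardinal.mk R := max_le (self_le_add_right _ _) (self_le_add_left _ _)
    _ = Cardinal.mk (S.I ⊕ R) := Cardinal.add_def _ _

end Pool.Agent.Dist14D
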