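import Pool.Agent.Helper927.DistD.Defs
import Pool.Agent.Helper927.DistD.H1
import Pool.Agent.Helper927.DistD.H12
set_option autoImplicit false
set_option maxHeartbeats 4000000
universe u v

namespace Pool.Agent.Dist14D

open Pool.Agent.Dist14

namespace Full

variable {R : Type u} [Ring R] (S : Full R)

end Full


/-! ### TARGET: replace the `sorry`s below by proofs (auxiliary lemmas are fine, put them in this file) -/

theorem Full.exists_embedding {R : Type u} [Ring R] (S : Full R) (hI : Infinite S.I)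
    (hB : Nonempty (Set (S.I ⊕ R) ↪ S.B)) : Nonempty ((S.T →ₗ[R] S.P) ↪ S.B) := by
  obtain ⟨l, hl⟩ : ∃ l : Cardinal.{u}, l = Cardinal.mk (S.I ⊕ R) := ⟨_, rfl⟩
  have hinf : Cardinal.aleph0 ≤ l := by
    rw [hl, Cardinal.aleph0_le_mk_iff]
    infer_instance
  have hl0 : l ≠ 0 := fun h => by
    rw [h] at hinf
    exact absurd hinf (not_le.2 Cardinal.aleph0_pos)
  have hI1 : Cardinal.mk S.I ≤ l := by
    rw [hl]
    exact Cardinal.mk_le_of_injective (Sum.inl_injective (α := S.I) (β := R))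
  have hR1 : Cardinal.mk R ≤ l := by
    rw [hl]
    exact Cardinal.mk_le_of_injective (Sum.inr_injective (α := S.I) (β := R))
  have hT : Cardinal.mk S.T ≤ l := by
    rw [hl]
    exact S.card_T hI
  have hP : Cardinal.mk S.P ≤ 2 ^ l := by
    have h1 : Cardinal.mk S.P ≤ Cardinal.mk (S.I → R) := by
      refine Cardinal.mk_le_of_surjective (f := fun (f : S.I → R) (i : S.I) => S.cl i (f i)) ?_
      intro p
      choose f hf using fun i => Submodule.Quotient.mk_surjective (S.Z (S.lev i)) (p i)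
      exact ⟨f, funext hf⟩
    have h2 : Cardinal.mk (S.I → R) = Cardinal.mk R ^ Cardinal.mk S.I := by simp
    rw [h2] at h1
    calc Cardinal.mk S.P ≤ Cardinal.mk R ^ Cardinal.mk S.I := h1
      _ ≤ l ^ Cardinal.mk S.I := Cardinal.power_le_power_right hR1
      _ ≤ l ^ l := Cardinal.power_le_power_left hl0 hI1
      _ = 2 ^ l := Cardinal.power_self_eq hinf
  have hfin : Cardinal.mk (S.T →ₗ[R] S.P) ≤ 2 ^ l := by
    have h1 : Cardinal.mk (S.T →ₗ[R] S.P) ≤ Cardinal.mk (S.T → S.P) :=
      Cardinal.mk_le_of_injective (f := fun φ : S.T →ₗ[R] S.P => (φ : S.T → S.P))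
        DFunLike.coe_injective
    have h2 : Cardinal.mk (S.T → S.P) = Cardinal.mk S.P ^ Cardinal.mk S.T :=
      (Cardinal.power_def _ _).symm
    rw [h2] at h1
    calc Cardinal.mk (S.T →ₗ[R] S.P) ≤ Cardinal.mk S.P ^ Cardinal.mk S.T := h1
      _ ≤ (2 ^ l) ^ Cardinal.mk S.T := Cardinal.power_le_power_right hP
      _ ≤ (2 ^ l) ^ l := Cardinal.power_le_power_left (Cardinal.power_ne_zero _ two_ne_zero) hT
      _ = 2 ^ (l * l) := Cardinal.power_mul.symm
      _ = 2 ^ l := by rw [Cardinal.mul_eq_self hinf]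
  have hB' : (2 : Cardinal.{u}) ^ l ≤ Cardinal.mk S.B := by
    rw [hl, ← Cardinal.mk_set]
    exact (Cardinal.le_def _ _).2 hB
  exact (Cardinal.le_def _ _).1 (hfin.trans hB')

end Pool.Agent.Dist14D
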