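import Pool.Agent.Helper927.DistD.Defs
import Pool.Agent.Helper927.DistD.H1
set_option autoImplicit false
set_option maxHeartbeats 4000000
universe u v

namespace Pool.Agent.Dist14D

open Pool.Agent.Dist14

namespace Full

variable {R : Type u} [Ring R] (S : Full R)

end Full


/-! ### TARGET: replace the `sorry`s below by proofs (auxiliary lemmas are fine, put them in this file) -/

theorem Full.Germ.add {R : Type u} [Ring R] {S : Full R} {w w' : S.P} {b : S.B ⊕ Fin 3}
    {d d' : R} (h : S.Germ w b d) (h' : S.Germ w' b d') : S.Germ (w + w') b (d + d') := by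
  obtain ⟨α, hα⟩ := h
  obtain ⟨β, hβ⟩ := h'
  refine ⟨max α β, fun γ hγ => ?_⟩
  rw [Pi.add_apply, hα γ (le_trans (le_max_left _ _) hγ), hβ γ (le_trans (le_max_right _ _) hγ)]
  rfl

theorem Full.Germ.sub {R : Type u} [Ring R] {S : Full R} {w w' : S.P} {b : S.B ⊕ Fin 3}
    {d d' : R} (h : S.Germ w b d) (h' : S.Germ w' b d') : S.Germ (w - w') b (d - d') := by
  obtain ⟨α, hα⟩ := h
  obtain ⟨β, hβ⟩ := h'
  refine ⟨max α β, fun γ hγ => ?_⟩
  rw [Pi.sub_apply, hα γ (le_trans (le_max_left _ _) hγ), hβ γ (le_trans (le_max_right _ _) hγ)]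
  rfl

theorem Full.Germ.smul {R : Type u} [Ring R] {S : Full R} {w : S.P} {b : S.B ⊕ Fin 3}
    {d : R} (h : S.Germ w b d) (r : R) : S.Germ (r • w) b (r * d) := by
  obtain ⟨α, hα⟩ := h
  refine ⟨α, fun γ hγ => ?_⟩
  rw [Pi.smul_apply, hα γ hγ]
  rfl

theorem Full.germ_zero {R : Type u} [Ring R] (S : Full R) (b : S.B ⊕ Fin 3) :
    S.Germ (0 : S.P) b 0 :=
  ⟨Classical.arbitrary _, fun _ _ => rfl⟩

theorem Full.germ_of_mem_T {R : Type u} [Ring R] (S : Full R) (t : S.P) (ht : t ∈ S.T)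
    (b : S.B ⊕ Fin 3) : S.Germ t b 0 := by
  refine Submodule.span_induction (p := fun t _ => S.Germ t b 0) ?_ ?_ ?_ ?_ ht
  · rintro _ ⟨p, rfl⟩
    refine ⟨p.2, fun α hα => ?_⟩
    change S.path p.1 p.2 (S.pre b α) = S.cl _ 0
    unfold Full.path
    rw [if_neg]
    · rfl
    · rintro ⟨_, h⟩
      rw [S.lev_pre] at h
      exact absurd h (not_lt.2 hα)
  · exact S.germ_zero b
  · intro x y _ _ hx hy
    have := hx.add hy
    rwa [add_zero] at this
  · intro a x _ hx
    have := hx.smul a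
    rwa [mul_zero] at this

theorem Full.germ_xi_self {R : Type u} [Ring R] (S : Full R) (b : S.B ⊕ Fin 3) :
    S.Germ (S.xi b) b 1 := by
  refine ⟨Classical.arbitrary _, fun α _ => ?_⟩
  unfold Full.xi
  rw [if_pos]
  rw [S.lev_pre]

theorem Full.germ_xi_ne {R : Type u} [Ring R] (S : Full R) (b b' : S.B ⊕ Fin 3)
    (hne : b ≠ b') : S.Germ (S.xi b) b' 0 := by
  obtain ⟨α0, h0⟩ := S.disj b b' hne
  refine ⟨α0, fun α hα => ?_⟩
  unfold Full.xi
  rw [if_neg]
  · rfl
  · rw [S.lev_pre]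
    exact h0 α hα

theorem Full.germ_xe {R : Type u} [Ring R] (S : Full R) (x : Option (Fin 3)) (η : S.B) :
    S.Germ (S.xe x) (Sum.inl η) 0 := by
  cases x with
  | none => exact S.germ_zero _
  | some j => exact S.germ_xi_ne (Sum.inr j) (Sum.inl η) (by simp)

theorem Full.germ_h_self {R : Type u} [Ring R] (S : Full R) (Θ : S.B → Option (Fin 3))
    (η : S.B) : S.Germ (S.h Θ η) (Sum.inl η) 1 := by
  have := (S.germ_xi_self (Sum.inl η)).add (S.germ_xe (Θ η) η)
  rwa [add_zero] at this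

theorem Full.germ_h_ne {R : Type u} [Ring R] (S : Full R) (Θ : S.B → Option (Fin 3))
    (η η' : S.B) (hne : η ≠ η') : S.Germ (S.h Θ η) (Sum.inl η') 0 := by
  have := (S.germ_xi_ne (Sum.inl η) (Sum.inl η') (by simpa using hne)).add
    (S.germ_xe (Θ η) η')
  rwa [add_zero] at this

theorem Full.germ_y {R : Type u} [Ring R] (S : Full R) (j : Fin 3) (η : S.B) :
    S.Germ (S.y j) (Sum.inl η) 0 := by
  have := (S.germ_xi_ne (Sum.inr j) (Sum.inl η) (by simp)).smul S.s
  rwa [mul_zero] at this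

theorem Full.germ_y_self {R : Type u} [Ring R] (S : Full R) (j : Fin 3) :
    S.Germ (S.y j) (Sum.inr j) S.s := by
  have := (S.germ_xi_self (Sum.inr j)).smul S.s
  rwa [mul_one] at this

theorem Full.germ_y_ne {R : Type u} [Ring R] (S : Full R) (j j' : Fin 3) (hne : j ≠ j') :
    S.Germ (S.y j) (Sum.inr j') 0 := by
  have := (S.germ_xi_ne (Sum.inr j) (Sum.inr j') (by simpa using hne)).smul S.s
  rwa [mul_zero] at this

theorem Full.Germ.unique {R : Type u} [Ring R] {S : Full R} {w : S.P} {b : S.B ⊕ Fin 3}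
    {d d' : R} (h : S.Germ w b d) (h' : S.Germ w b d') : d - d' ∈ S.Zinf := by
  obtain ⟨α, hα⟩ := h
  obtain ⟨β, hβ⟩ := h'
  have h1 := hα (max α β) (le_max_left _ _)
  have h2 := hβ (max α β) (le_max_right _ _)
  rw [h1] at h2
  exact ⟨_, (Submodule.Quotient.eq _).1 h2⟩

end Pool.Agent.Dist14D
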