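import Pool.Agent.Helper927.DistD.Defs
import Pool.Agent.Helper927.DistD.H1
set_option autoImplicit false
set_option maxHeartbeats 4000000
universe u v

namespace Pool.Agent.Dist14D

open Pool.Agent.Dist14

namespace Full

variable {R : Type u} [Ring R] (S : Full R)

end Full


/-! ### TARGET: replace the `sorry`s below by proofs (auxiliary lemmas are fine, put them in this file) -/

theorem Full.Rel.unique {R : Type u} [Ring R] {S : Full R} {φ : S.T →ₗ[R] S.P}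
    {w w' w'' : S.P} (h : S.Rel φ w w') (h' : S.Rel φ w w'') : w' = w'' := by
  have h0 : w' - w'' = 0 := by
    apply S.tors
    intro l hl
    obtain ⟨h1, h2⟩ := h l hl
    obtain ⟨h3, h4⟩ := h' l hl
    rw [smul_sub, h2, h4, sub_self]
  exact sub_eq_zero.1 h0

theorem Full.Rel.add {R : Type u} [Ring R] {S : Full R} {φ : S.T →ₗ[R] S.P}
    {w₁ w₁' w₂ w₂' : S.P} (h : S.Rel φ w₁ w₁') (h' : S.Rel φ w₂ w₂') :
    S.Rel φ (w₁ + w₂) (w₁' + w₂') := by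
  intro l hl
  obtain ⟨h1, h2⟩ := h l hl
  obtain ⟨h3, h4⟩ := h' l hl
  have hm : l • (w₁ + w₂) ∈ S.T := by
    rw [smul_add]; exact S.T.add_mem h1 h3
  refine ⟨hm, ?_⟩
  have e : (⟨l • (w₁ + w₂), hm⟩ : S.T) = ⟨l • w₁, h1⟩ + ⟨l • w₂, h3⟩ :=
    Subtype.ext (smul_add l w₁ w₂)
  rw [e, map_add, smul_add, h2, h4]

theorem Full.Rel.sub {R : Type u} [Ring R] {S : Full R} {φ : S.T →ₗ[R] S.P}
    {w₁ w₁' w₂ w₂' : S.P} (h : S.Rel φ w₁ w₁') (h' : S.Rel φ w₂ w₂') :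
    S.Rel φ (w₁ - w₂) (w₁' - w₂') := by
  intro l hl
  obtain ⟨h1, h2⟩ := h l hl
  obtain ⟨h3, h4⟩ := h' l hl
  have hm : l • (w₁ - w₂) ∈ S.T := by
    rw [smul_sub]; exact S.T.sub_mem h1 h3
  refine ⟨hm, ?_⟩
  have e : (⟨l • w₁, h1⟩ : S.T) = ⟨l • (w₁ - w₂), hm⟩ + ⟨l • w₂, h3⟩ := by
    apply Subtype.ext
    show l • w₁ = l • (w₁ - w₂) + l • w₂
    rw [smul_sub]; abel
  rw [e, map_add] at h2
  rw [smul_sub, h2, h4, add_sub_cancel_right]

end Pool.Agent.Dist14D
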