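import Pool.Agent.Helper927.DistD.Defs
import Pool.Agent.Helper927.DistD.H1
import Pool.Agent.Helper927.DistD.H2
set_option autoImplicit false
set_option maxHeartbeats 4000000
universe u v

namespace Pool.Agent.Dist14D

open Pool.Agent.Dist14

namespace Full

variable {R : Type u} [Ring R] (S : Full R)

end Full


/-! ### TARGET: replace the `sorry`s below by proofs (auxiliary lemmas are fine, put them in this file) -/

theorem Full.mem_M_iff {R : Type u} [Ring R] (S : Full R) (Θ : S.B → Option (Fin 3))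
    (w : S.P) : w ∈ S.M Θ ↔ ∃ t ∈ S.T, ∃ (d : S.B →₀ R) (e0 e1 : R),
      w = t + d.sum (fun η r => r • S.h Θ η) + e0 • S.y 0 + e1 • S.y 1 := by
  unfold Full.M
  constructor
  · intro hw
    obtain ⟨u, hu, v, hv, rfl⟩ := Submodule.mem_sup.1 hw
    obtain ⟨t, ht, m, hm, rfl⟩ := Submodule.mem_sup.1 hu
    obtain ⟨d, rfl⟩ := Finsupp.mem_span_range_iff_exists_finsupp.1 hm
    obtain ⟨e0, e1, rfl⟩ := Submodule.mem_span_pair.1 hv
    exact ⟨t, ht, d, e0, e1, by rw [add_assoc (t + _)]⟩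
  · rintro ⟨t, ht, d, e0, e1, rfl⟩
    rw [add_assoc (t + _)]
    refine Submodule.add_mem_sup (Submodule.add_mem_sup ht ?_) ?_
    · exact Finsupp.mem_span_range_iff_exists_finsupp.2 ⟨d, rfl⟩
    · exact Submodule.mem_span_pair.2 ⟨e0, e1, rfl⟩

theorem Full.T_le_G {R : Type u} [Ring R] (S : Full R) (Θ : S.B → Option (Fin 3)) :
    S.T ≤ S.G Θ := le_sup_left

theorem Full.T_le_M {R : Type u} [Ring R] (S : Full R) (Θ : S.B → Option (Fin 3)) :
    S.T ≤ S.M Θ := le_sup_left.trans le_sup_left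

theorem Full.G_le_M {R : Type u} [Ring R] (S : Full R) (Θ : S.B → Option (Fin 3)) :
    S.G Θ ≤ S.M Θ := sup_le (S.T_le_M Θ) Submodule.smul_le_right

theorem Full.smul_mem_G {R : Type u} [Ring R] (S : Full R) (Θ : S.B → Option (Fin 3))
    (k : R) (hk : k ∈ S.K) (w : S.P) (hw : w ∈ S.M Θ) : k • w ∈ S.G Θ :=
  Submodule.mem_sup_right (Submodule.smul_mem_smul hk hw)

theorem Full.h_mem_M {R : Type u} [Ring R] (S : Full R) (Θ : S.B → Option (Fin 3))
    (η : S.B) : S.h Θ η ∈ S.M Θ :=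
  Submodule.mem_sup_left (Submodule.mem_sup_right (Submodule.subset_span ⟨η, rfl⟩))

theorem Full.y_mem_M {R : Type u} [Ring R] (S : Full R) (Θ : S.B → Option (Fin 3)) :
    S.y 0 ∈ S.M Θ ∧ S.y 1 ∈ S.M Θ :=
  ⟨Submodule.mem_sup_right (Submodule.subset_span (Set.mem_insert _ _)),
    Submodule.mem_sup_right (Submodule.subset_span (Set.mem_insert_of_mem _ rfl))⟩

theorem Full.sum_smul71 {R : Type u} [Ring R] (S : Full R) (Θ : S.B → Option (Fin 3))
    (k : R) (d : S.B →₀ R) :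
    (k • d).sum (fun η r => r • S.h Θ η) = k • d.sum (fun η r => r • S.h Θ η) := by
  have h := (Finsupp.linearCombination R (S.h Θ)).map_smul k d
  simpa only [Finsupp.linearCombination_apply] using h

theorem Full.sum_add71 {R : Type u} [Ring R] (S : Full R) (Θ : S.B → Option (Fin 3))
    (d d' : S.B →₀ R) :
    (d + d').sum (fun η r => r • S.h Θ η)
      = d.sum (fun η r => r • S.h Θ η) + d'.sum (fun η r => r • S.h Θ η) := by
  have h := (Finsupp.linearCombination R (S.h Θ)).map_add d d'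
  simpa only [Finsupp.linearCombination_apply] using h

theorem Full.mem_G_iff {R : Type u} [Ring R] (S : Full R) (Θ : S.B → Option (Fin 3))
    (w : S.P) : w ∈ S.G Θ ↔ ∃ t ∈ S.T, ∃ (d : S.B →₀ R) (e0 e1 : R),
      (∀ η, d η ∈ S.K) ∧ e0 ∈ S.K ∧ e1 ∈ S.K ∧
      w = t + d.sum (fun η r => r • S.h Θ η) + e0 • S.y 0 + e1 • S.y 1 := by
  haveI := S.two
  constructor
  · intro hw
    obtain ⟨t, ht, u, hu, rfl⟩ := Submodule.mem_sup.1 (show w ∈ S.T ⊔ S.K • S.M Θ from hw)
    have key : ∃ t ∈ S.T, ∃ (d : S.B →₀ R) (e0 e1 : R),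
        (∀ η, d η ∈ S.K) ∧ e0 ∈ S.K ∧ e1 ∈ S.K ∧
        u = t + d.sum (fun η r => r • S.h Θ η) + e0 • S.y 0 + e1 • S.y 1 := by
      refine Submodule.smul_induction_on (p := fun u => ∃ t ∈ S.T, ∃ (d : S.B →₀ R) (e0 e1 : R),
        (∀ η, d η ∈ S.K) ∧ e0 ∈ S.K ∧ e1 ∈ S.K ∧
        u = t + d.sum (fun η r => r • S.h Θ η) + e0 • S.y 0 + e1 • S.y 1) hu ?_ ?_
      · intro k hk m hm
        obtain ⟨t, ht, d, e0, e1, rfl⟩ := (S.mem_M_iff Θ m).1 hm
        refine ⟨k • t, S.T.smul_mem k ht, k • d, k * e0, k * e1, ?_, ?_, ?_, ?_⟩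
        · intro η
          rw [Finsupp.smul_apply, smul_eq_mul]
          exact Ideal.mul_mem_right _ _ hk
        · exact Ideal.mul_mem_right _ _ hk
        · exact Ideal.mul_mem_right _ _ hk
        · rw [S.sum_smul71, smul_add, smul_add, smul_add, mul_smul, mul_smul]
      · rintro x y ⟨t, ht, d, e0, e1, hd, h0, h1, rfl⟩ ⟨t', ht', d', e0', e1', hd', h0', h1', rfl⟩
        refine ⟨t + t', S.T.add_mem ht ht', d + d', e0 + e0', e1 + e1', ?_, S.K.add_mem h0 h0',
          S.K.add_mem h1 h1', ?_⟩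
        · intro η
          rw [Finsupp.add_apply]
          exact S.K.add_mem (hd η) (hd' η)
        · have ha : (e0 + e0') • S.y 0 = e0 • S.y 0 + e0' • S.y 0 := add_smul e0 e0' (S.y 0)
          have hb : (e1 + e1') • S.y 1 = e1 • S.y 1 + e1' • S.y 1 := add_smul e1 e1' (S.y 1)
          rw [S.sum_add71, ha, hb]
          abel
    obtain ⟨t', ht', d, e0, e1, hd, h0, h1, rfl⟩ := key
    refine ⟨t + t', S.T.add_mem ht ht', d, e0, e1, hd, h0, h1, ?_⟩
    abel
  · rintro ⟨t, ht, d, e0, e1, hd, h0, h1, rfl⟩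
    have hy := S.y_mem_M Θ
    refine (S.G Θ).add_mem ((S.G Θ).add_mem ((S.G Θ).add_mem (S.T_le_G Θ ht) ?_) ?_) ?_
    · exact Submodule.sum_mem _ fun η _ => S.smul_mem_G Θ _ (hd η) _ (S.h_mem_M Θ η)
    · exact S.smul_mem_G Θ _ h0 _ hy.1
    · exact S.smul_mem_G Θ _ h1 _ hy.2

theorem Full.germ_sum71 {R : Type u} [Ring R] (S : Full R) (Θ : S.B → Option (Fin 3))
    (f : S.B → R) (η : S.B) (s : Finset S.B) [DecidableEq S.B] :
    S.Germ (∑ β ∈ s, f β • S.h Θ β) (Sum.inl η) (if η ∈ s then f η else 0) := by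
  induction s using Finset.induction_on with
  | empty =>
    simp only [Finset.sum_empty, Finset.notMem_empty, if_false]
    exact S.germ_of_mem_T 0 S.T.zero_mem _
  | insert a s ha ih =>
    rw [Finset.sum_insert ha]
    by_cases h : a = η
    · subst h
      rw [if_neg ha] at ih
      rw [if_pos (Finset.mem_insert_self _ _)]
      have h1 := (S.germ_h_self Θ a).smul (f a)
      have h2 := h1.add ih
      rwa [mul_one, add_zero] at h2
    · have h1 := (S.germ_h_ne Θ a η h).smul (f a)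
      have h2 := h1.add ih
      rw [mul_zero, zero_add] at h2
      have h3 : (η ∈ insert a s) ↔ η ∈ s := by
        rw [Finset.mem_insert]
        exact ⟨fun h' => h'.resolve_left (fun h'' => h h''.symm), Or.inr⟩
      simp only [h3]
      exact h2

/-- germs along the branches `inl η` of an element in the above representation -/
theorem Full.germ_repr {R : Type u} [Ring R] (S : Full R) (Θ : S.B → Option (Fin 3))
    (t : S.P) (ht : t ∈ S.T) (d : S.B →₀ R) (e0 e1 : R) (η : S.B) :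
    S.Germ (t + d.sum (fun η r => r • S.h Θ η) + e0 • S.y 0 + e1 • S.y 1)
      (Sum.inl η) (d η) := by
  classical
  have h1 := S.germ_of_mem_T t ht (Sum.inl η)
  have h2 := S.germ_sum71 Θ d η d.support
  have h2' : (if η ∈ d.support then d η else 0) = d η := by
    split_ifs with h
    · rfl
    · exact (Finsupp.notMem_support_iff.1 h).symm
  rw [h2'] at h2
  have h3 := (S.germ_y 0 η).smul e0
  have h4 := (S.germ_y 1 η).smul e1
  have h5 := ((h1.add h2).add h3).add h4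
  rw [zero_add, mul_zero, mul_zero, add_zero, add_zero] at h5
  exact h5

theorem Full.sum_mem_T71 {R : Type u} [Ring R] (S : Full R) (Θ : S.B → Option (Fin 3))
    (t : S.P) (ht : t ∈ S.T) (d : S.B →₀ R) (e0 e1 : R)
    (hg : ∀ η, S.Germ (t + d.sum (fun η r => r • S.h Θ η) + e0 • S.y 0 + e1 • S.y 1) (Sum.inl η) 0) :
    d.sum (fun η r => r • S.h Θ η) ∈ S.T := by
  refine Submodule.sum_mem _ fun η _ => ?_
  apply S.smul_h_mem
  have h1 := (S.germ_repr Θ t ht d e0 e1 η).unique (hg η)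
  rwa [sub_zero] at h1

/-- an element of `M Θ` all of whose germs along the branches `inl η` vanish -/
theorem Full.M_of_germ_zero {R : Type u} [Ring R] (S : Full R) (Θ : S.B → Option (Fin 3))
    (w : S.P) (hw : w ∈ S.M Θ) (hg : ∀ η, S.Germ w (Sum.inl η) 0) :
    ∃ t ∈ S.T, ∃ e0 e1 : R, w = t + e0 • S.y 0 + e1 • S.y 1 := by
  obtain ⟨t, ht, d, e0, e1, rfl⟩ := (S.mem_M_iff Θ w).1 hw
  exact ⟨t + d.sum (fun η r => r • S.h Θ η), S.T.add_mem ht (S.sum_mem_T71 Θ t ht d e0 e1 hg),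
    e0, e1, rfl⟩

/-- an element of `G Θ` all of whose germs along the branches `inl η` vanish -/
theorem Full.G_of_germ_zero {R : Type u} [Ring R] (S : Full R) (Θ : S.B → Option (Fin 3))
    (w : S.P) (hw : w ∈ S.G Θ) (hg : ∀ η, S.Germ w (Sum.inl η) 0) :
    ∃ t ∈ S.T, ∃ e0 ∈ S.K, ∃ e1 ∈ S.K, w = t + e0 • S.y 0 + e1 • S.y 1 := by
  obtain ⟨t, ht, d, e0, e1, hd, h0, h1, rfl⟩ := (S.mem_G_iff Θ w).1 hw
  exact ⟨t + d.sum (fun η r => r • S.h Θ η), S.T.add_mem ht (S.sum_mem_T71 Θ t ht d e0 e1 hg),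
    e0, h0, e1, h1, rfl⟩

end Pool.Agent.Dist14D
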