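import Pool.Agent.Helper927.DistD.Defs
import Pool.Agent.Helper927.DistD.H1
import Pool.Agent.Helper927.DistD.H2
import Pool.Agent.Helper927.DistD.H3
import Pool.Agent.Helper927.DistD.H4
set_option autoImplicit false
set_option maxHeartbeats 4000000
universe u v

namespace Pool.Agent.Dist14D

open Pool.Agent.Dist14

namespace Full

variable {R : Type u} [Ring R] (S : Full R)

end Full


/-! ### TARGET: replace the `sorry`s below by proofs (auxiliary lemmas are fine, put them in this file) -/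

theorem Full.not_steph {R : Type u} [Ring R] (S : Full R) (Θ : S.B → Option (Fin 3))
    (h : ∀ φ : S.T →ₗ[R] S.P, S.Closed φ Θ → S.Scalar φ Θ) : ¬ Steph R (S.M Θ) := by
  intro hS
  obtain ⟨hy0, hy1⟩ := S.y_mem_M Θ
  have hyj : ∀ j : Fin 3, j ≠ 2 → S.y j ∈ S.M Θ := by
    intro j hj
    have : j = 0 ∨ j = 1 := by
      revert hj; revert j; decide
    rcases this with rfl | rfl
    · exact hy0
    · exact hy1
  have hTM : S.T ≤ S.M Θ := (S.T_le_G Θ).trans (S.G_le_M Θ)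
  have claim : ∀ φ : Module.End R (S.M Θ), ∃ d : R,
      ((φ ⟨S.y 0, hy0⟩ : S.M Θ) : S.P) - d • S.y 0 ∈ S.G Θ ∧
        ((φ ⟨S.y 1, hy1⟩ : S.M Θ) : S.P) - d • S.y 1 ∈ S.G Θ := by
    intro φ
    let φ0 : S.T →ₗ[R] S.P := (S.M Θ).subtype ∘ₗ φ ∘ₗ Submodule.inclusion hTM
    have hRel : ∀ (w : S.P) (hw : w ∈ S.M Θ), (∀ l : R, l * S.s ∈ S.Zinf → l • w ∈ S.T) →
        S.Rel φ0 w ((φ ⟨w, hw⟩ : S.M Θ) : S.P) := by
      intro w hw hT l hl
      refine ⟨hT l hl, ?_⟩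
      have e1 : (⟨l • w, hTM (hT l hl)⟩ : S.M Θ) = l • (⟨w, hw⟩ : S.M Θ) := rfl
      change l • ((φ ⟨w, hw⟩ : S.M Θ) : S.P) = ((φ (⟨l • w, hTM (hT l hl)⟩ : S.M Θ) : S.M Θ) : S.P)
      rw [e1, map_smul, Submodule.coe_smul]
    have hRy : ∀ (j : Fin 3) (hj : j ≠ 2),
        S.Rel φ0 (S.y j) ((φ ⟨S.y j, hyj j hj⟩ : S.M Θ) : S.P) := by
      intro j hj
      apply hRel
      intro l hl
      have : l • S.y j = (l * S.s) • S.xi (Sum.inr j) := by
        unfold Full.y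
        rw [mul_smul]
      rw [this]
      exact S.smul_xi_mem _ _ hl
    have hcl : S.Closed φ0 Θ := by
      refine ⟨fun η => ?_, fun j hj => ⟨_, (φ ⟨S.y j, hyj j hj⟩).2, hRy j hj⟩⟩
      have hh := S.h_mem_M Θ η
      refine ⟨((φ ⟨S.s • S.h Θ η, (S.M Θ).smul_mem _ hh⟩ : S.M Θ) : S.P), ?_, ?_⟩
      · have e1 : (⟨S.s • S.h Θ η, (S.M Θ).smul_mem _ hh⟩ : S.M Θ) =
            S.s • (⟨S.h Θ η, hh⟩ : S.M Θ) := rfl
        rw [e1, map_smul, Submodule.coe_smul]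
        exact S.smul_mem_G Θ S.s S.s_mem _ (φ ⟨S.h Θ η, hh⟩).2
      · apply hRel
        intro l hl
        rw [← mul_smul]
        exact S.smul_h_mem Θ η _ hl
    obtain ⟨d, hd⟩ := h φ0 hcl
    refine ⟨d, ?_, ?_⟩
    · obtain ⟨w', hw', hG⟩ := hd 0 (by decide)
      have := Full.Rel.unique (hRy 0 (by decide)) hw'
      rw [← this] at hG
      exact hG
    · obtain ⟨w', hw', hG⟩ := hd 1 (by decide)
      have := Full.Rel.unique (hRy 1 (by decide)) hw'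
      rw [← this] at hG
      exact hG
  obtain ⟨e, f, g, h1, h2⟩ := hS ⟨S.y 0, hy0⟩ ⟨S.y 1, hy1⟩
  obtain ⟨de, he0, he1⟩ := claim e
  obtain ⟨df, hf0, hf1⟩ := claim f
  obtain ⟨dg, hg0, hg1⟩ := claim g
  have h1' : ((e ⟨S.y 0, hy0⟩ : S.M Θ) : S.P) = ((f ⟨S.y 1, hy1⟩ : S.M Θ) : S.P) := by rw [h1]
  have h2' : S.y 1 - ((e ⟨S.y 1, hy1⟩ : S.M Θ) : S.P) = ((g ⟨S.y 0, hy0⟩ : S.M Θ) : S.P) := by
    rw [← h2]; rfl
  -- first relation
  have A1 : de • S.y 0 - df • S.y 1 ∈ S.G Θ := by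
    have : de • S.y 0 - df • S.y 1 =
        (((f ⟨S.y 1, hy1⟩ : S.M Θ) : S.P) - df • S.y 1) - (((e ⟨S.y 0, hy0⟩ : S.M Θ) : S.P) - de • S.y 0) := by
      rw [h1']; abel
    rw [this]
    exact (S.G Θ).sub_mem hf1 he0
  have A2 : (1 - de) • S.y 1 - dg • S.y 0 ∈ S.G Θ := by
    have : (1 - de) • S.y 1 - dg • S.y 0 =
        (((e ⟨S.y 1, hy1⟩ : S.M Θ) : S.P) - de • S.y 1) + (((g ⟨S.y 0, hy0⟩ : S.M Θ) : S.P) - dg • S.y 0) := by
      have e3 : (1 - de) • S.y 1 = S.y 1 - de • S.y 1 := by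
        have := sub_smul (1 : R) de (S.y 1)
        rwa [one_smul] at this
      rw [← h2', e3]; abel
    rw [this]
    exact (S.G Θ).add_mem he1 hg0
  have germ_comb : ∀ (j j' : Fin 3) (a b : R) (η : S.B), S.Germ (a • S.y j - b • S.y j') (Sum.inl η) 0 := by
    intro j j' a b η
    have := ((S.germ_y j η).smul a).sub ((S.germ_y j' η).smul b)
    simpa using this
  obtain ⟨t, ht, k0, hk0, k1, hk1, E1⟩ := S.G_of_germ_zero Θ _ A1 (fun η => germ_comb 0 1 de df η)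
  obtain ⟨t', ht', k0', hk0', k1', hk1', E2⟩ := S.G_of_germ_zero Θ _ A2 (fun η => germ_comb 1 0 (1 - de) dg η)
  -- germs at inr 0
  have B1 : de * S.s - k0 * S.s ∈ S.Zinf := by
    have g1 : S.Germ (de • S.y 0 - df • S.y 1) (Sum.inr 0) (de * S.s - df * 0) :=
      ((S.germ_y_self 0).smul de).sub ((S.germ_y_ne 1 0 (by decide)).smul df)
    have g2 : S.Germ (t + k0 • S.y 0 + k1 • S.y 1) (Sum.inr 0) (0 + k0 * S.s + k1 * 0) :=
      ((S.germ_of_mem_T t ht _).add ((S.germ_y_self 0).smul k0)).add ((S.germ_y_ne 1 0 (by decide)).smul k1)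
    rw [← E1] at g2
    have := Full.Germ.unique g1 g2
    simpa using this
  have B2 : (1 - de) * S.s - k1' * S.s ∈ S.Zinf := by
    have g1 : S.Germ ((1 - de) • S.y 1 - dg • S.y 0) (Sum.inr 1) ((1 - de) * S.s - dg * 0) :=
      ((S.germ_y_self 1).smul (1 - de)).sub ((S.germ_y_ne 0 1 (by decide)).smul dg)
    have g2 : S.Germ (t' + k0' • S.y 0 + k1' • S.y 1) (Sum.inr 1) (0 + k0' * 0 + k1' * S.s) :=
      ((S.germ_of_mem_T t' ht' _).add ((S.germ_y_ne 0 1 (by decide)).smul k0')).add ((S.germ_y_self 1).smul k1')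
    rw [← E2] at g2
    have := Full.Germ.unique g1 g2
    simpa using this
  obtain ⟨-, hadd, -, hmul, -, hs⟩ := S.zinf_facts
  have B3 : (1 - (k0 + k1')) * S.s ∈ S.Zinf := by
    have := hadd _ _ B1 B2
    have e : de * S.s - k0 * S.s + ((1 - de) * S.s - k1' * S.s) = (1 - (k0 + k1')) * S.s := by
      simp only [sub_mul, add_mul, one_mul]; abel
    rwa [e] at this
  have hkj : k0 + k1' ∈ Ring.jacobson R := S.le_jac (S.K.add_mem hk0 hk1')
  have hinv : ∃ u : R, u * (1 - (k0 + k1')) = 1 := by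
    rw [← Ideal.jacobson_bot, Ideal.mem_jacobson_iff] at hkj
    obtain ⟨z, hz⟩ := hkj (-1)
    refine ⟨z, ?_⟩
    rw [Ideal.mem_bot] at hz
    have : z * (1 - (k0 + k1')) = (z * -1 * (k0 + k1') + z - 1) + 1 := by
      rw [mul_sub, mul_one, mul_neg, mul_one, neg_mul]; abel
    rw [this, hz, zero_add]
  obtain ⟨u, hu⟩ := hinv
  apply hs
  have := hmul u _ B3
  rwa [← mul_assoc, hu, one_mul] at this

end Pool.Agent.Dist14D
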