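import Pool.Agent.Helper927.DistD.Defs
import Pool.Agent.Helper927.DistD.H1
import Pool.Agent.Helper927.DistD.H2
import Pool.Agent.Helper927.DistD.H3
import Pool.Agent.Helper927.DistD.H4
set_option autoImplicit false
set_option maxHeartbeats 4000000
universe u v

namespace Pool.Agent.Dist14D

open Pool.Agent.Dist14

namespace Full

variable {R : Type u} [Ring R] (S : Full R)

end Full


/-! ### TARGET: replace the `sorry`s below by proofs (auxiliary lemmas are fine, put them in this file) -/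

theorem Full.sub_smul_7222 {R : Type u} [Ring R] (S : Full R) (a b : R) (p : S.P) :
    (a - b) • p = a • p - b • p := by
  funext i
  exact sub_smul a b (p i)

theorem Full.smul_sub_7222 {R : Type u} [Ring R] (S : Full R) (a : R) (p q : S.P) :
    a • p - a • q = a • (p - q) := by
  funext i
  exact (smul_sub a (p i) (q i)).symm

/-- The unkillable case: `φ` acts on the `s ξ_j` like an element of `K` on `ξ_j`,
modulo `G Θ0`. -/
theorem Full.scalar_mod {R : Type u} [Ring R] (S : Full R) (φ : S.T →ₗ[R] S.P)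
    (D : Set S.B) (Θ0 : S.B → Option (Fin 3)) (hD : Dᶜ.Infinite) (h0 : ∀ η, η ∉ D → Θ0 η = none)
    (hU : ∀ η, η ∉ D → ∀ x : Option (Fin 3), ∃ w' k, k ∈ S.K ∧
      S.Rel φ (S.s • (S.xi (Sum.inl η) + S.xe x)) w' ∧
      w' - k • S.xe x ∈ S.G Θ0 ∧ S.Germ w' (Sum.inl η) k) :
    ∃ c ∈ S.K, ∀ j : Fin 3, ∃ X, S.Rel φ (S.y j) X ∧ X - c • S.xi (Sum.inr j) ∈ S.G Θ0 := by
  classical
  choose! w k hk hrel hG hgerm using hU
  have hxn : S.xe none = 0 := rfl
  have hX : ∀ η, η ∉ D → ∀ x, S.Rel φ (S.s • S.xe x) (w η x - w η none) := by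
    intro η hη x
    have h1 := Full.Rel.sub (hrel η hη x) (hrel η hη none)
    have h2 : S.s • (S.xi (Sum.inl η) + S.xe x) - S.s • (S.xi (Sum.inl η) + S.xe none) =
        S.s • S.xe x := by
      rw [hxn, add_zero, S.smul_sub_7222, add_sub_cancel_left]
    rwa [h2] at h1
  obtain ⟨η1, hη1⟩ := hD.nonempty
  obtain ⟨X, hXdef⟩ : ∃ X : Option (Fin 3) → S.P, ∀ x, X x = w η1 x - w η1 none := ⟨_, fun _ => rfl⟩
  have hX1 : ∀ x, S.Rel φ (S.s • S.xe x) (X x) := fun x => by rw [hXdef]; exact hX η1 hη1 x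
  have hXe : ∀ η, η ∉ D → ∀ x, X x = w η x - w η none := fun η hη x =>
    Full.Rel.unique (hX1 x) (hX η hη x)
  have hm1 : ∀ η, η ∉ D → ∀ x, X x - k η x • S.xe x ∈ S.G Θ0 := by
    intro η hη x
    have h1 := Submodule.sub_mem _ (hG η hη x) (hG η hη none)
    rw [hxn, smul_zero, sub_zero] at h1
    rw [hXe η hη x]
    have h2 : w η x - w η none - k η x • S.xe x = w η x - k η x • S.xe x - w η none := by abel
    rw [h2]
    exact h1
  have hg1 : ∀ η, η ∉ D → ∀ x, S.Germ (X x) (Sum.inl η) (k η x - k η none) := by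
    intro η hη x
    rw [hXe η hη x]
    exact Full.Germ.sub (hgerm η hη x) (hgerm η hη none)
  have hstep : ∀ x, ∃ F : Finset S.B, ∀ η, η ∉ D → η ∉ F →
      X x - k η none • S.xe x ∈ S.G Θ0 := by
    intro x
    obtain ⟨t, ht, d, e0, e1, hm⟩ := (S.mem_M_iff Θ0 _).1 (S.G_le_M Θ0 (hm1 η1 hη1 x))
    refine ⟨d.support, fun η hη hηF => ?_⟩
    have hd : d η = 0 := by simpa using hηF
    have h1 := S.germ_repr Θ0 t ht d e0 e1 η
    rw [← hm, hd] at h1
    have h2 := Full.Germ.add h1 (Full.Germ.smul (S.germ_xe x η) (k η1 x))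
    rw [sub_add_cancel, mul_zero, add_zero] at h2
    have h3 := Full.Germ.unique (hg1 η hη x) h2
    rw [sub_zero] at h3
    have h4 := S.T_le_G Θ0 (S.smul_xe_mem x _ h3)
    have h5 := Submodule.add_mem _ (hm1 η hη x) h4
    have h6 : X x - k η x • S.xe x + (k η x - k η none) • S.xe x =
        X x - k η none • S.xe x := by
      rw [S.sub_smul_7222]; abel
    rwa [h6] at h5
  choose F hF using hstep
  obtain ⟨ηs, hηs⟩ := (hD.sdiff (F (some 2)).finite_toSet).nonempty
  have hηsD : ηs ∉ D := hηs.1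
  have hηsF : ηs ∉ F (some 2) := fun h => hηs.2 (Finset.mem_coe.2 h)
  refine ⟨k ηs none, hk ηs hηsD none, fun j => ⟨X (some j), hX1 (some j), ?_⟩⟩
  obtain ⟨η, hη⟩ := (hD.sdiff (F (some 2) ∪ F (some j)).finite_toSet).nonempty
  have hηD : η ∉ D := hη.1
  have hηF : η ∉ F (some 2) := fun h => hη.2 (Finset.mem_coe.2 (Finset.mem_union_left _ h))
  have hηF' : η ∉ F (some j) := fun h => hη.2 (Finset.mem_coe.2 (Finset.mem_union_right _ h))
  have a1 := Submodule.sub_mem _ (hF (some 2) ηs hηsD hηsF) (hF (some 2) η hηD hηF)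
  have a2 : X (some 2) - k ηs none • S.xe (some 2) - (X (some 2) - k η none • S.xe (some 2)) =
      (k η none - k ηs none) • S.xe (some 2) := by
    rw [S.sub_smul_7222]; abel
  rw [a2] at a1
  have a3 : ∀ η', S.Germ ((k η none - k ηs none) • S.xe (some 2)) (Sum.inl η') 0 := by
    intro η'
    have := Full.Germ.smul (S.germ_xe (some 2) η') (k η none - k ηs none)
    rwa [mul_zero] at this
  obtain ⟨t, ht, e0, e1, he⟩ := S.M_of_germ_zero Θ0 _ (S.G_le_M Θ0 a1) a3
  have a4 : S.Germ ((k η none - k ηs none) • S.xe (some 2)) (Sum.inr 2)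
      ((k η none - k ηs none) * 1) := Full.Germ.smul (S.germ_xi_self (Sum.inr 2)) _
  have a5 : S.Germ (t + e0 • S.y 0 + e1 • S.y 1) (Sum.inr 2) (0 + e0 * 0 + e1 * 0) :=
    Full.Germ.add (Full.Germ.add (S.germ_of_mem_T t ht _)
      (Full.Germ.smul (S.germ_y_ne 0 2 (by decide)) e0))
      (Full.Germ.smul (S.germ_y_ne 1 2 (by decide)) e1)
  rw [← he] at a5
  have a6 := Full.Germ.unique a4 a5
  rw [mul_one, mul_zero, mul_zero, add_zero, add_zero, sub_zero] at a6
  have a7 := S.T_le_G Θ0 (S.smul_xe_mem (some j) _ a6)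
  have a8 := Submodule.add_mem _ (hF (some j) η hηD hηF') a7
  have a9 : X (some j) - k η none • S.xe (some j) + (k η none - k ηs none) • S.xe (some j) =
      X (some j) - k ηs none • S.xe (some j) := by
    rw [S.sub_smul_7222]; abel
  rw [a9] at a8
  exact a8

end Pool.Agent.Dist14D
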