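import Pool.Agent.Helper927.DistD.Defs
import Pool.Agent.Helper927.DistD.H1
import Pool.Agent.Helper927.DistD.H2
import Pool.Agent.Helper927.DistD.H3
import Pool.Agent.Helper927.DistD.H4
set_option autoImplicit false
set_option maxHeartbeats 4000000
universe u v

namespace Pool.Agent.Dist14D

open Pool.Agent.Dist14

namespace Full

variable {R : Type u} [Ring R] (S : Full R)

end Full


/-! ### TARGET: replace the `sorry`s below by proofs (auxiliary lemmas are fine, put them in this file) -/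

/-- If killing is impossible, the hypothesis of `scalar_mod` holds. -/
theorem Full.unkillable {R : Type u} [Ring R] (S : Full R) (φ : S.T →ₗ[R] S.P)
    (D : Set S.B) (Θ0 : S.B → Option (Fin 3)) (h0 : ∀ η, η ∉ D → Θ0 η = none)
    (H : ∀ η, η ∉ D → ∀ (x : Option (Fin 3)) (F : Finset S.B), ∃ Θ : S.B → Option (Fin 3),
      (∀ β, (β ∈ D ∨ β ∈ F) → β ≠ η → Θ β = Θ0 β) ∧ Θ η = x ∧ S.Closed φ Θ)
    (η : S.B) (hη : η ∉ D) (x : Option (Fin 3)) : ∃ w' k, k ∈ S.K ∧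
      S.Rel φ (S.s • (S.xi (Sum.inl η) + S.xe x)) w' ∧
      w' - k • S.xe x ∈ S.G Θ0 ∧ S.Germ w' (Sum.inl η) k := by
  classical
  obtain ⟨Θ1, -, hx1, hcl1⟩ := H η hη x ∅
  obtain ⟨w', hw'G, hw'R⟩ := hcl1.1 η
  have hh1 : S.h Θ1 η = S.xi (Sum.inl η) + S.xe x := by
    unfold Full.h
    rw [hx1]
  rw [hh1] at hw'R
  obtain ⟨t, ht, d, e0, e1, hdK, he0, he1, hw'⟩ := (S.mem_G_iff Θ1 w').1 hw'G
  obtain ⟨Θ2, hag2, hx2, hcl2⟩ := H η hη x d.support
  obtain ⟨w'', hw''G, hw''R⟩ := hcl2.1 η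
  have hh2 : S.h Θ2 η = S.xi (Sum.inl η) + S.xe x := by
    unfold Full.h
    rw [hx2]
  rw [hh2] at hw''R
  have hww : w'' = w' := Full.Rel.unique hw''R hw'R
  rw [hww] at hw''G
  obtain ⟨t', ht', d', e0', e1', hdK', he0', he1', hw''⟩ := (S.mem_G_iff Θ2 w').1 hw''G
  have hg1 : ∀ β, S.Germ w' (Sum.inl β) (d β) := by
    intro β
    have := S.germ_repr Θ1 t ht d e0 e1 β
    rw [← hw'] at this
    exact this
  have hg2 : ∀ β, S.Germ w' (Sum.inl β) (d' β) := by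
    intro β
    have := S.germ_repr Θ2 t' ht' d' e0' e1' β
    rw [← hw''] at this
    exact this
  have hdiff : ∀ β, d β - d' β ∈ S.Zinf := fun β => Full.Germ.unique (hg1 β) (hg2 β)
  refine ⟨w', d' η, hdK' η, hw'R, ?_, hg2 η⟩
  have hsum : d'.sum (fun η r => r • S.h Θ2 η) = ∑ β ∈ insert η d'.support, d' β • S.h Θ2 β :=
    Finsupp.sum_of_support_subset _ (Finset.subset_insert _ _) _ (fun i _ => zero_smul R (S.h Θ2 i))
  have hsplit : ∑ β ∈ insert η d'.support, d' β • S.h Θ2 β =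
      d' η • S.h Θ2 η + ∑ β ∈ (insert η d'.support).erase η, d' β • S.h Θ2 β :=
    (Finset.add_sum_erase _ _ (Finset.mem_insert_self η _)).symm
  have hη0 : S.h Θ0 η = S.xi (Sum.inl η) := by
    unfold Full.h
    rw [h0 η hη]
    simp [Full.xe]
  have h1 : d' η • S.h Θ2 η - d' η • S.xe x ∈ S.G Θ0 := by
    have e : d' η • S.h Θ2 η - d' η • S.xe x = d' η • S.h Θ0 η := by
      rw [hη0, hh2, smul_add]
      abel
    rw [e]
    exact S.smul_mem_G Θ0 _ (hdK' η) _ (S.h_mem_M Θ0 η)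
  have h2 : ∑ β ∈ (insert η d'.support).erase η, d' β • S.h Θ2 β ∈ S.G Θ0 := by
    refine Submodule.sum_mem _ ?_
    intro β hβ
    have hne : β ≠ η := (Finset.mem_erase.1 hβ).1
    by_cases hβ2 : β ∈ D ∨ β ∈ d.support
    · have e : S.h Θ2 β = S.h Θ0 β := by
        unfold Full.h
        rw [hag2 β hβ2 hne]
      rw [e]
      exact S.smul_mem_G Θ0 _ (hdK' β) _ (S.h_mem_M Θ0 β)
    · push Not at hβ2
      have hd0 : d β = 0 := Finsupp.notMem_support_iff.1 hβ2.2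
      have hz := hdiff β
      rw [hd0, zero_sub] at hz
      have hz2 : d' β ∈ S.Zinf := by
        have := (S.zinf_facts).2.2.2.2.1 _ hz
        rwa [neg_neg] at this
      exact S.T_le_G Θ0 (S.smul_h_mem Θ2 β _ hz2)
  have h3 : e0' • S.y 0 ∈ S.G Θ0 := S.smul_mem_G Θ0 _ he0' _ (S.y_mem_M Θ0).1
  have h4 : e1' • S.y 1 ∈ S.G Θ0 := S.smul_mem_G Θ0 _ he1' _ (S.y_mem_M Θ0).2
  have h5 : t' ∈ S.G Θ0 := S.T_le_G Θ0 ht'
  have e : w' - d' η • S.xe x = t' + (d' η • S.h Θ2 η - d' η • S.xe x) +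
      (∑ β ∈ (insert η d'.support).erase η, d' β • S.h Θ2 β) + e0' • S.y 0 + e1' • S.y 1 := by
    conv_lhs => rw [hw'', hsum, hsplit]
    abel
  rw [e]
  exact (S.G Θ0).add_mem ((S.G Θ0).add_mem ((S.G Θ0).add_mem ((S.G Θ0).add_mem h5 h1) h2) h3) h4

end Pool.Agent.Dist14D
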