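import Pool.Agent.Helper927.DistD.Defs
import Pool.Agent.Helper927.DistD.H1
import Pool.Agent.Helper927.DistD.H2
import Pool.Agent.Helper927.DistD.H3
import Pool.Agent.Helper927.DistD.H4
import Pool.Agent.Helper927.DistD.H5
import Pool.Agent.Helper927.DistD.H6
set_option autoImplicit false
set_option maxHeartbeats 4000000
universe u v

namespace Pool.Agent.Dist14D

open Pool.Agent.Dist14

namespace Full

variable {R : Type u} [Ring R] (S : Full R)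

end Full


/-! ### TARGET: replace the `sorry`s below by proofs (auxiliary lemmas are fine, put them in this file) -/

theorem Full.kill_aux {R : Type u} [Ring R] (S : Full R) (Θ Θ0 : S.B → Option (Fin 3))
    (d : S.B →₀ R) (h : ∀ β ∈ d.support, Θ β = Θ0 β) :
    d.sum (fun η r => r • S.h Θ0 η) = d.sum (fun η r => r • S.h Θ η) := by
  unfold Finsupp.sum
  refine Finset.sum_congr rfl fun β hβ => ?_
  show d β • S.h Θ0 β = d β • S.h Θ β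
  unfold Full.h
  rw [h β hβ]

theorem Full.kill {R : Type u} [Ring R] (S : Full R) (φ : S.T →ₗ[R] S.P)
    (D : Set S.B) (Θ0 : S.B → Option (Fin 3)) (hD : Dᶜ.Infinite)
    (h0 : ∀ η, η ∉ D → Θ0 η = none) :
    ∃ η, η ∉ D ∧ ∃ x : Option (Fin 3), ∃ F : Finset S.B, ∀ Θ : S.B → Option (Fin 3),
      (∀ β, (β ∈ D ∨ β ∈ F) → β ≠ η → Θ β = Θ0 β) → Θ η = x →
        (S.Closed φ Θ → S.Scalar φ Θ) := by
  classical
  by_contra hcon
  have H : ∀ η, η ∉ D → ∀ (x : Option (Fin 3)) (F : Finset S.B), ∃ Θ : S.B → Option (Fin 3),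
      (∀ β, (β ∈ D ∨ β ∈ F) → β ≠ η → Θ β = Θ0 β) ∧ Θ η = x ∧ S.Closed φ Θ ∧
        ¬ S.Scalar φ Θ := by
    intro η hη x F
    by_contra hno
    refine hcon ⟨η, hη, x, F, fun Θ h1 h2 h3 => ?_⟩
    by_contra h4
    exact hno ⟨Θ, h1, h2, h3, h4⟩
  have H' : ∀ η, η ∉ D → ∀ (x : Option (Fin 3)) (F : Finset S.B), ∃ Θ : S.B → Option (Fin 3),
      (∀ β, (β ∈ D ∨ β ∈ F) → β ≠ η → Θ β = Θ0 β) ∧ Θ η = x ∧ S.Closed φ Θ := by
    intro η hη x F
    obtain ⟨Θ, h1, h2, h3, -⟩ := H η hη x F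
    exact ⟨Θ, h1, h2, h3⟩
  obtain ⟨c, hc, hX⟩ := S.scalar_mod φ D Θ0 hD h0
    (fun η hη x => S.unkillable φ D Θ0 h0 H' η hη x)
  obtain ⟨X0, hR0, hG0⟩ := hX 0
  obtain ⟨X1, hR1, hG1⟩ := hX 1
  obtain ⟨t0, ht0, d0, a0, b0, hd0, ha0, hb0, e0⟩ := (S.mem_G_iff Θ0 _).1 hG0
  obtain ⟨t1, ht1, d1, a1, b1, hd1, ha1, hb1, e1⟩ := (S.mem_G_iff Θ0 _).1 hG1
  obtain ⟨η, hη⟩ := hD.nonempty
  obtain ⟨Θ, hΘ, hΘη, hcl, hns⟩ := H η hη none (d0.support ∪ d1.support)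
  have hsame : ∀ β, β ∈ d0.support ∪ d1.support → Θ β = Θ0 β := by
    intro β hβ
    by_cases hβη : β = η
    · rw [hβη, hΘη, h0 η hη]
    · exact hΘ β (Or.inr hβ) hβη
  have hG0' : X0 - c • S.xi (Sum.inr 0) ∈ S.G Θ := by
    rw [S.mem_G_iff]
    refine ⟨t0, ht0, d0, a0, b0, hd0, ha0, hb0, ?_⟩
    rw [e0, S.kill_aux Θ Θ0 d0 (fun β hβ => hsame β (Finset.mem_union_left _ hβ))]
  have hG1' : X1 - c • S.xi (Sum.inr 1) ∈ S.G Θ := by
    rw [S.mem_G_iff]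
    refine ⟨t1, ht1, d1, a1, b1, hd1, ha1, hb1, ?_⟩
    rw [e1, S.kill_aux Θ Θ0 d1 (fun β hβ => hsame β (Finset.mem_union_right _ hβ))]
  obtain ⟨w', hw', hRw⟩ := hcl.2 0 (by decide)
  have hw0 : w' = X0 := hRw.unique hR0
  have hcM : c • S.xi (Sum.inr 0) ∈ S.M Θ := by
    have h1 : c • S.xi (Sum.inr 0) = X0 - (X0 - c • S.xi (Sum.inr 0)) := by abel
    rw [h1]
    exact (S.M Θ).sub_mem (hw0 ▸ hw') (S.G_le_M Θ hG0')
  have hgl : ∀ η', S.Germ (c • S.xi (Sum.inr 0)) (Sum.inl η') 0 := by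
    intro η'
    have h1 := (S.germ_xi_ne (Sum.inr 0) (Sum.inl η') (by simp)).smul c
    rwa [mul_zero] at h1
  obtain ⟨t, ht, u0, u1, hu⟩ := S.M_of_germ_zero Θ _ hcM hgl
  have hg1 : S.Germ (c • S.xi (Sum.inr 0)) (Sum.inr 0) (c * 1) :=
    (S.germ_xi_self (Sum.inr 0)).smul c
  have hg2 : S.Germ (c • S.xi (Sum.inr 0)) (Sum.inr 0) (0 + u0 * S.s + u1 * 0) := by
    rw [hu]
    exact ((S.germ_of_mem_T t ht _).add ((S.germ_y_self 0).smul u0)).add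
      ((S.germ_y_ne 1 0 (by decide)).smul u1)
  have hz : c - u0 * S.s ∈ S.Zinf := by
    have h1 := hg1.unique hg2
    have h2 : c * 1 - (0 + u0 * S.s + u1 * 0) = c - u0 * S.s := by
      rw [mul_one, mul_zero, zero_add, add_zero]
    rwa [h2] at h1
  have key : ∀ (j : Fin 3) (X : S.P), X - c • S.xi (Sum.inr j) ∈ S.G Θ →
      X - u0 • S.y j ∈ S.G Θ := by
    intro j X hXj
    have h1 : X - u0 • S.y j = (X - c • S.xi (Sum.inr j)) +
        (c - u0 * S.s) • S.xi (Sum.inr j) := by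
      have h2 : (c - u0 * S.s) • S.xi (Sum.inr j) =
          c • S.xi (Sum.inr j) - (u0 * S.s) • S.xi (Sum.inr j) :=
        sub_smul c (u0 * S.s) (S.xi (Sum.inr j))
      have h3 : (u0 * S.s) • S.xi (Sum.inr j) = u0 • S.y j :=
        mul_smul u0 S.s (S.xi (Sum.inr j))
      rw [h2, h3]
      abel
    rw [h1]
    exact (S.G Θ).add_mem hXj (S.T_le_G Θ (S.smul_xi_mem _ _ hz))
  refine hns ⟨u0, fun j hj => ?_⟩
  fin_cases j
  · exact ⟨X0, hR0, key 0 X0 hG0'⟩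
  · exact ⟨X1, hR1, key 1 X1 hG1'⟩
  · exact absurd rfl hj

end Pool.Agent.Dist14D
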