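import Pool.Agent.Helper927.DistD.Defs
set_option autoImplicit false
set_option maxHeartbeats 4000000
universe u v

namespace Pool.Agent.Dist14D

open Pool.Agent.Dist14

namespace Full

variable {R : Type u} [Ring R] (S : Full R)

end Full


/-! ### AVAILABLE: statements you may use; leave these `sorry`s in place (they are proved in other jobs) -/



/-! ### TARGET: replace the `sorry`s below by proofs (auxiliary lemmas are fine, put them in this file) -/

open Cardinal in
theorem mk_initial_lt {ι : Type u} {B : Type u} (f : ι ↪ B) [Infinite B]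
    [LinearOrder ι] (hlt : ∀ i : ι, #(Set.Iio i) < #ι) (F : ι → Finset B) (i : ι) :
    #(⋃ j : Set.Iio i, ((F j : Finset B) : Set B)) < #B := by
  have hι : #ι ≤ #B := mk_le_of_injective f.injective
  have h0 : ∀ j : Set.Iio i, #((F j : Finset B) : Set B) ≤ ℵ₀ := fun j =>
    (Set.Finite.lt_aleph0 (F j).finite_toSet).le
  rcases lt_or_ge (#(Set.Iio i)) ℵ₀ with h1 | h1
  · have hf : Finite (Set.Iio i) := lt_aleph0_iff_finite.1 h1
    have : (⋃ j : Set.Iio i, ((F j : Finset B) : Set B)).Finite :=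
      Set.finite_iUnion fun j => (F j).finite_toSet
    exact (Set.Finite.lt_aleph0 this).trans_le (aleph0_le_mk B)
  · refine lt_of_le_of_lt (mk_iUnion_le _) ?_
    refine lt_of_le_of_lt (mul_le_mul_right (ciSup_le' h0) _) ?_
    rw [mul_aleph0_eq h1]
    exact (hlt i).trans_le hι

/-- Transfinite recursion: all `i` can be killed simultaneously. -/
theorem recursion_lemma {ι : Type u} {B : Type u} {X : Type v} (x0 : X) (f : ι ↪ B)
    [Infinite B] (Kill : ι → (B → X) → Prop)
    (h : ∀ i (D : Set B) (Θ0 : B → X), Dᶜ.Infinite → (∀ η, η ∉ D → Θ0 η = x0) →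
      ∃ η, η ∉ D ∧ ∃ x : X, ∃ F : Finset B, ∀ Θ : B → X,
        (∀ β, (β ∈ D ∨ β ∈ F) → β ≠ η → Θ β = Θ0 β) → Θ η = x → Kill i Θ) :
    ∃ Θ : B → X, ∀ i, Kill i Θ := by
  classical
  obtain ⟨lo, wf, hord⟩ := Cardinal.exists_ord_eq_type_lt ι
  have hlt : ∀ i : ι, Cardinal.mk (Set.Iio i) < Cardinal.mk ι := fun i =>
    Cardinal.mk_Iio_lt i hord
  let T := B × X × Finset B
  have : Nonempty T := ⟨(Classical.arbitrary B, x0, ∅)⟩
  let D : (ι → T) → ι → Set B := fun g i => {β | ∃ j, j < i ∧ (β = (g j).1 ∨ β ∈ (g j).2.2)}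
  let Θ0 : (ι → T) → ι → B → X := fun g i β =>
    if h : ∃ j, j < i ∧ β = (g j).1 then (g h.choose).2.1 else x0
  let P : ι → (ι → T) → T → Prop := fun i g t => (D g i)ᶜ.Infinite →
    (t.1 ∉ D g i ∧ ∀ Θ : B → X, (∀ β, (β ∈ D g i ∨ β ∈ t.2.2) → β ≠ t.1 → Θ β = Θ0 g i β) →
      Θ t.1 = t.2.1 → Kill i Θ)
  have hP : ∀ i g, ∃ t, P i g t := by
    intro i g
    by_cases hD : (D g i)ᶜ.Infinite
    · obtain ⟨η, hη, x, F, hF⟩ := h i (D g i) (Θ0 g i) hD (by
        intro η hη
        simp only [Θ0]
        rw [dif_neg]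
        rintro ⟨j, hj, rfl⟩
        exact hη ⟨j, hj, Or.inl rfl⟩)
      exact ⟨(η, x, F), fun _ => ⟨hη, hF⟩⟩
    · exact ⟨Classical.arbitrary T, fun h => absurd h hD⟩
  let step : ∀ i : ι, (∀ j, j < i → T) → T := fun i g =>
    Classical.epsilon (fun t => P i (fun j => if hj : j < i then g j hj else Classical.arbitrary T) t)
  let G : ι → T := (wellFounded_lt (α := ι)).fix step
  have hG : ∀ i, G i = step i (fun j _ => G j) := fun i => WellFounded.fix_eq _ _ _
  have hGP : ∀ i, P i (fun j => if hj : j < i then G j else Classical.arbitrary T) (G i) := by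
    intro i
    rw [hG i]
    exact Classical.epsilon_spec (hP i (fun j => if hj : j < i then G j else Classical.arbitrary T))
  have hDeq : ∀ i, D (fun j => if hj : j < i then G j else Classical.arbitrary T) i = D G i := by
    intro i
    ext β
    simp only [D, Set.mem_ofPred_eq]
    constructor
    · rintro ⟨j, hj, h⟩
      simp only [dif_pos hj] at h
      exact ⟨j, hj, h⟩
    · rintro ⟨j, hj, h⟩
      refine ⟨j, hj, ?_⟩
      simp only [dif_pos hj]
      exact h
  -- cardinality
  have hcard : ∀ i, (D G i)ᶜ.Infinite := by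
    intro i
    have h1 := mk_initial_lt f hlt (fun j => insert (G j).1 (G j).2.2) i
    have h2 : D G i = ⋃ j : Set.Iio i, ((insert (G j).1 (G j).2.2 : Finset B) : Set B) := by
      ext β
      simp only [D, Set.mem_ofPred_eq, Set.mem_iUnion, Finset.mem_coe, Finset.mem_insert,
        Subtype.exists, Set.mem_Iio, exists_prop]
    rw [← h2] at h1
    have h3 := Cardinal.mk_compl_of_infinite _ h1
    rw [Set.Infinite, ← Set.finite_coe_iff, ← Cardinal.lt_aleph0_iff_finite, h3, not_lt]
    exact Cardinal.aleph0_le_mk B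
  have hnot : ∀ i, (G i).1 ∉ D G i := by
    intro i
    have := (hGP i (by rw [hDeq]; exact hcard i)).1
    rwa [hDeq] at this
  have hinj : ∀ i j, (G i).1 = (G j).1 → i = j := by
    intro i j hij
    rcases lt_trichotomy i j with h1 | h1 | h1
    · exact absurd ⟨i, h1, Or.inl hij.symm⟩ (hnot j)
    · exact h1
    · exact absurd ⟨j, h1, Or.inl hij⟩ (hnot i)
  have hkill : ∀ i, ∀ Θ : B → X, (∀ β, (β ∈ D G i ∨ β ∈ (G i).2.2) → β ≠ (G i).1 →
      Θ β = Θ0 G i β) → Θ (G i).1 = (G i).2.1 → Kill i Θ := by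
    intro i Θ h1 h2
    refine (hGP i (by rw [hDeq]; exact hcard i)).2 Θ ?_ h2
    intro β hβ hne
    rw [hDeq] at hβ
    rw [h1 β hβ hne]
    simp only [Θ0]
    by_cases hex : ∃ j, j < i ∧ β = (G j).1
    · have hex' : ∃ j, j < i ∧
          β = ((fun j => if hj : j < i then G j else Classical.arbitrary T) j).1 := by
        obtain ⟨j, hj, hb⟩ := hex
        exact ⟨j, hj, by simp only [dif_pos hj]; exact hb⟩
      rw [dif_pos hex, dif_pos hex']
      have c1 := hex.choose_spec
      have c2 := hex'.choose_spec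
      have c3 : β = (G hex'.choose).1 := by
        have := c2.2
        simp only [dif_pos c2.1] at this
        exact this
      have c4 : hex.choose = hex'.choose := hinj _ _ (c1.2.symm.trans c3)
      rw [dif_pos c2.1, ← c4]
    · have hex' : ¬ ∃ j, j < i ∧
          β = ((fun j => if hj : j < i then G j else Classical.arbitrary T) j).1 := by
        rintro ⟨j, hj, hb⟩
        simp only [dif_pos hj] at hb
        exact hex ⟨j, hj, hb⟩
      rw [dif_neg hex, dif_neg hex']
  refine ⟨fun β => if h : ∃ j, β = (G j).1 then (G h.choose).2.1 else x0, fun i => ?_⟩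
  have hval : ∀ l, (fun β => if h : ∃ j, β = (G j).1 then (G h.choose).2.1 else x0) (G l).1
      = (G l).2.1 := by
    intro l
    have hex : ∃ j, (G l).1 = (G j).1 := ⟨l, rfl⟩
    simp only
    rw [dif_pos hex]
    have := hinj _ _ hex.choose_spec
    rw [← this]
  refine hkill i _ ?_ (hval i)
  intro β hβ hne
  by_cases hex : ∃ l, β = (G l).1
  · obtain ⟨l, rfl⟩ := hex
    refine (hval l).trans ?_
    have hli : l ≠ i := by
      rintro rfl
      exact hne rfl
    have hlt' : l < i := by
      rcases lt_trichotomy l i with h1 | h1 | h1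
      · exact h1
      · exact absurd h1 hli
      · exfalso
        apply hnot l
        rcases hβ with ⟨j, hj, hb⟩ | hb
        · exact ⟨j, hj.trans h1, hb⟩
        · exact ⟨i, h1, Or.inr hb⟩
    simp only [Θ0]
    have hex2 : ∃ j, j < i ∧ (G l).1 = (G j).1 := ⟨l, hlt', rfl⟩
    rw [dif_pos hex2]
    have := hinj _ _ hex2.choose_spec.2
    rw [← this]
  · simp only [Θ0]
    rw [dif_neg hex, dif_neg]
    rintro ⟨j, hj, hb⟩
    exact hex ⟨j, hb⟩

end Pool.Agent.Dist14D
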