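import Pool.Agent.Helper927.DistD.Defs
set_option autoImplicit false
set_option maxHeartbeats 4000000
universe u v

namespace Pool.Agent.Dist14D

open Pool.Agent.Dist14

namespace Full

variable {R : Type u} [Ring R] (S : Full R)

end Full


/-! ### AVAILABLE: statements you may use; leave these `sorry`s in place (they are proved in other jobs) -/



/-! ### TARGET: replace the `sorry`s below by proofs (auxiliary lemmas are fine, put them in this file) -/


/-- The chain of left ideals attached to an idempotent ideal in the radical. -/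
theorem exists_chain {R : Type u} [Ring R] (K : Ideal R) (two : K.IsTwoSided)
    (idem : K * K = K) (hJ : K ≤ Ring.jacobson R) (h0 : K ≠ ⊥) :
    ∃ (s : R) (W : Type u) (_ : LinearOrder W) (_ : WellFoundedLT W) (_ : NoMaxOrder W)
      (_ : Nonempty W) (Z : W → Ideal R), s ∈ K ∧ Monotone Z ∧ (∀ α, s ∉ Z α) ∧
      (∀ α (x : R), (∀ l, (∃ β, l * s ∈ Z β) → l * x ∈ Z α) → x ∈ Z α) := by
  classical
  have h1 : ∃ s ∈ K, ∃ k ∈ K, k * s ≠ 0 := by
    by_contra hcon
    push Not at hcon
    apply h0
    rw [← idem, eq_bot_iff, Ideal.mul_le]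
    intro r hr s hs
    rw [hcon s hs r hr]
    exact Submodule.zero_mem _
  obtain ⟨s, hs, k0, hk0, hk0s⟩ := h1
  let f : R →ₗ[R] R := LinearMap.toSpanSingleton R R s
  have hf : ∀ x, f x = x * s := fun x => by simp [f]
  let N : Submodule R R := Submodule.map f K
  have hNmem : ∀ k ∈ K, k * s ∈ N := fun k hk => ⟨k, hk, hf k⟩
  have hKN : K • N = N := by
    show K • Submodule.map f K = Submodule.map f K
    rw [← Submodule.map_smul'', Ideal.smul_eq_mul, idem]
  have hNne : N ≠ ⊥ := by
    intro h
    apply hk0s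
    have : k0 * s ∈ N := hNmem k0 hk0
    rw [h] at this
    simpa using this
  have hNfg : ¬ N.FG := by
    intro h
    apply hNne
    apply Submodule.FG.eq_bot_of_le_jacobson_smul h
    calc N = K • N := hKN.symm
      _ ≤ _ := Submodule.smul_mono_left hJ
  let S : Set Cardinal.{u} := {c | ∃ G : Set R, Cardinal.mk G = c ∧ Submodule.span R G = N}
  have hS : S.Nonempty := ⟨_, (N : Set R), rfl, Submodule.span_eq N⟩
  obtain ⟨μ, ⟨G, hGμ, hGN⟩, hmin⟩ := Cardinal.lt_wf.has_min S hS
  have hμ : Cardinal.aleph0 ≤ μ := by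
    by_contra hlt
    rw [not_le, ← hGμ, Cardinal.lt_aleph0_iff_set_finite] at hlt
    exact hNfg (Submodule.fg_def.mpr ⟨G, hlt, hGN⟩)
  obtain ⟨g⟩ : Nonempty (μ.ord.ToType ≃ G) :=
    Cardinal.eq.mp (by rw [Cardinal.mk_ord_toType, hGμ])
  have hNM : NoMaxOrder μ.ord.ToType := Cardinal.noMaxOrder hμ
  have hne : Nonempty μ.ord.ToType := by
    rw [← Cardinal.mk_ne_zero_iff, Cardinal.mk_ord_toType]
    intro h
    rw [h] at hμ
    exact absurd hμ (not_le.mpr Cardinal.aleph0_pos)
  let A : μ.ord.ToType → Set R := fun α => (fun β => (g β : R)) '' Set.Iio α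
  let GG : μ.ord.ToType → Submodule R R := fun α => Submodule.span R (A α)
  have hGGmono : Monotone GG := by
    intro α β h
    exact Submodule.span_mono (Set.image_mono (Set.Iio_subset_Iio h))
  have hGGle : ∀ α, GG α ≤ N := by
    intro α
    refine Submodule.span_le.mpr ?_
    rintro _ ⟨β, _, rfl⟩
    rw [← hGN]
    exact Submodule.subset_span (g β).2
  have hGGne : ∀ α, GG α ≠ N := by
    intro α h
    refine hmin _ ⟨A α, rfl, h⟩ ?_
    exact lt_of_le_of_lt Cardinal.mk_image_le (Cardinal.mk_Iio_toType_ord_lt α)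
  have hGGex : ∀ x ∈ N, ∃ α, x ∈ GG α := by
    intro x hx
    rw [← hGN] at hx
    induction hx using Submodule.span_induction with
    | mem x hx =>
      obtain ⟨α, hα⟩ := exists_gt (g.symm ⟨x, hx⟩)
      refine ⟨α, Submodule.subset_span ⟨g.symm ⟨x, hx⟩, hα, ?_⟩⟩
      simp
    | zero => exact ⟨Classical.arbitrary _, Submodule.zero_mem _⟩
    | add x y _ _ hx hy =>
      obtain ⟨α, hα⟩ := hx
      obtain ⟨β, hβ⟩ := hy
      exact ⟨max α β, Submodule.add_mem _ (hGGmono (le_max_left α β) hα)
        (hGGmono (le_max_right α β) hβ)⟩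
    | smul a x _ hx =>
      obtain ⟨α, hα⟩ := hx
      exact ⟨α, Submodule.smul_mem _ a hα⟩
  let Z : μ.ord.ToType → Ideal R := fun α =>
    { carrier := {u | ∀ k ∈ K, k * u ∈ GG α}
      add_mem' := by
        intro a b ha hb k hk
        rw [mul_add]
        exact Submodule.add_mem _ (ha k hk) (hb k hk)
      zero_mem' := by
        intro k hk
        rw [mul_zero]
        exact Submodule.zero_mem _
      smul_mem' := by
        intro c x hx k hk
        rw [smul_eq_mul, ← mul_assoc]
        exact hx _ (Ideal.mul_mem_right c K hk) }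
  have hZ : ∀ α u, u ∈ Z α ↔ ∀ k ∈ K, k * u ∈ GG α := fun α u => Iff.rfl
  refine ⟨s, μ.ord.ToType, inferInstance, inferInstance, hNM, hne, Z, hs, ?_, ?_, ?_⟩
  · intro α β h u hu
    rw [hZ] at hu ⊢
    exact fun k hk => hGGmono h (hu k hk)
  · intro α h
    rw [hZ] at h
    apply hGGne α
    refine le_antisymm (hGGle α) ?_
    rintro _ ⟨k, hk, rfl⟩
    rw [hf]
    exact h k hk
  · intro α x h
    have key : ∀ k ∈ K, k * x ∈ Z α := by
      intro k hk
      apply h
      obtain ⟨β, hβ⟩ := hGGex (k * s) (hNmem k hk)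
      refine ⟨β, (hZ _ _).mpr fun k' _ => ?_⟩
      exact Submodule.smul_mem _ k' hβ
    rw [hZ]
    intro b hb
    rw [← idem] at hb
    induction hb using Submodule.mul_induction_on' with
    | mem_mul_mem m hm n hn =>
      rw [mul_assoc]
      exact (hZ _ _).mp (key n hn) m hm
    | add a _ b _ ha hb =>
      rw [add_mul]
      exact Submodule.add_mem _ ha hb

end Pool.Agent.Dist14D
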