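import Pool.Agent.Helper927.DistD.Defs
import Pool.Agent.Helper927.DistD.H1
import Pool.Agent.Helper927.DistD.H11
import Pool.Agent.Helper927.DistD.H13
import Pool.Agent.Helper927.DistD.H14
import Pool.Agent.Helper927.DistD.H7
import Pool.Agent.Helper927.DistD.H8
import Pool.Agent.Helper927.DistD.H9
set_option autoImplicit false
set_option maxHeartbeats 4000000
universe u v

namespace Pool.Agent.Dist14D

open Pool.Agent.Dist14

namespace Full

variable {R : Type u} [Ring R] (S : Full R)

end Full


/-! ### TARGET: replace the `sorry`s below by proofs (auxiliary lemmas are fine, put them in this file) -/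

/-- Rings all of whose modules are endo-distributive have no nonzero idempotent ideal
in the radical. -/
theorem LAdm.idem_eq_bot {R : Type u} [Ring R] (h : LAdm R) (K : Ideal R)
    (two : K.IsTwoSided) (idem : K * K = K) (hJ : K ≤ Ring.jacobson R) : K = ⊥ := by
  by_contra h0
  obtain ⟨s, W, lo, wf, nm, nw, Z, hs, hZm, hsZ, hcl⟩ := exists_chain K two idem hJ h0
  obtain ⟨I, B, lev, pre, h1, h2, h3, hI, hB⟩ := exists_tree R W
  let S : Full R := @Full.mk R _ K two hJ s hs W lo nm nw Z hZm hsZ hcl I B lev pre h1 h2 h3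
  have hI' : Infinite S.I := hI
  have hB' : Nonempty (Set (S.I ⊕ R) ↪ S.B) := hB
  obtain ⟨f⟩ := Full.exists_embedding S hI' hB'
  haveI : Infinite S.B := by
    obtain ⟨g⟩ := hB'
    have : Infinite (Set (S.I ⊕ R)) := by
      refine Infinite.of_injective (fun i : S.I => ({Sum.inl i} : Set (S.I ⊕ R))) ?_
      intro a b hab
      simpa using hab
    exact Infinite.of_injective g g.injective
  obtain ⟨Θ, hΘ⟩ := recursion_lemma (ι := S.T →ₗ[R] S.P) (X := Option (Fin 3)) none f
    (fun φ Θ => S.Closed φ Θ → S.Scalar φ Θ) (fun φ D Θ0 hD h0 => Full.kill S φ D Θ0 hD h0)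
  exact Full.not_steph S Θ hΘ ((steph_iff R (S.M Θ)).1 (h (S.M Θ)))

end Pool.Agent.Dist14D
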