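import Pool.Agent.Helper927.Dist.F6
import Pool.Agent.Helper927.DistD.H15
import Pool.Agent.Helper927.DistD.H1
import Pool.Agent.Helper927.DistD.H2
import Pool.Agent.Helper927.DistD.H3
import Pool.Agent.Helper927.DistD.H4
import Pool.Agent.Helper927.DistD.H5
import Pool.Agent.Helper927.DistD.H6
set_option autoImplicit false
set_option maxHeartbeats 4000000
universe u v

namespace Pool.Agent.Dist14D
open Pool.Agent.Dist14

theorem good_of_ladm {R : Type u} [Ring R] (h : LAdm R) :
    IsFiniteProductOfArtinianChainRings R := by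
  obtain ⟨n, hn⟩ := jacobson_stable h.ldist h.finite_maximal
    (fun m hm => (h.pow_stable m hm).imp fun k hk => hk.2)
  refine good_of_nilpotent_jacobson h.ldist h.rdist h.finite_maximal (n + 1) ?_
  refine LAdm.idem_eq_bot h (Ring.jacobson R ^ (n + 1)) inferInstance ?_ ?_
  · rw [← Ideal.IsTwoSided.pow_add, show n + 1 + (n + 1) = n + (n + 2) by ring, f4_stab _ hn, hn]
  · rw [Ideal.IsTwoSided.pow_succ]
    exact Ideal.mul_le_left

theorem classification (A : Type u) [Ring A] :
    Admissible A ↔ IsFiniteProductOfArtinianChainRings A :=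
  ⟨fun h => good_unop (good_of_ladm h), main_result.1 A⟩

end Pool.Agent.Dist14D
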